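import Pool.Agent.H39.NV.ClsB0

/-!
# The size of a polynomial of the line on a window, and its variation

`crv`: a bound of a polynomial of the line on the window at most samples, from a bound at the samples.
`var_win`: the variation on a short window, from the variation between the samples of the window.
-/

set_option autoImplicit false

namespace Pool.NVX

open Finset Real MvPolynomial
open Pool.Agent.H49.Ent Pool.Agent.H32.Dense Pool.STK Pool.KA Pool.KSAT Pool.K2S Pool.PB Pool.S6C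
open Pool.GEN Pool.CHT
open Pool.PB.Trl (rt rt_mem t_rt)
open Pool.FLF (Fam.sub)

variable {m J : ℕ}

/-- **A polynomial of the line on the window**, at a quarter of the samples. -/
theorem crv (m D : ℕ) : ∃ C₁ : ℝ, 1 ≤ C₁ ∧ ∀ {J : ℕ} {F : Fam m J} {w s : ℕ}
    {A : F.Ω → Prop} {M θ : ℝ} (Q : LnT F → Polynomial ℝ), 0 < Pe F.p A → w ≤ J →
    (∀ s, (Q s).natDegree ≤ D) →
    (∀ (B' : F.Ω → Prop) (hB' : 0 < Pe F.p B'), Sub B' A → Pe F.p A ≤ 2 * Pe F.p B' →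
      (Fam.sub F B' hB').Tm θ) → 0 ≤ θ → C₁ * (θ + 1) ≤ ((J : ℝ) - w) * Real.log 2 →
    C₁ * (θ + 1) ≤ s → 0 ≤ M → (∀ ω, A ω → |(Q (slam F w ω)).eval (F.t ω)| ≤ M) →
    ∃ B : F.Ω → Prop, Sub B A ∧ Pe F.p A / 4 ≤ Pe F.p B ∧ ∀ ω, B ω →
      wmx w (slam F w ω).2.2 (Q (slam F w ω)) ≤ 2 ^ s * M := by
  obtain ⟨C₁, hC₁, hrem⟩ := low_rem m D
  refine ⟨C₁, hC₁, ?_⟩
  intro J F w s A M θ Q hA hw hdeg hTm hθ hn1 hn2 hM0 hM
  obtain ⟨A₀, hA₀⟩ : ∃ A₀ : F.Ω → Prop, A₀ = fun ω =>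
    0 < wmx w (slam F w ω).2.2 (Q (slam F w ω)) := ⟨_, rfl⟩
  have hsplit : Pe F.p A ≤ Pe F.p (fun ω => A ω ∧ A₀ ω) + Pe F.p (fun ω => A ω ∧ ¬ A₀ ω) :=
    Pool.K2S.Pe_or F.isLaw fun ω hω => by
      by_cases h : A₀ ω
      · exact Or.inl ⟨hω, h⟩
      · exact Or.inr ⟨hω, h⟩
  rcases le_or_gt (Pe F.p A / 2) (Pe F.p (fun ω => A ω ∧ A₀ ω)) with h1 | h1
  · have h0 : 0 < Pe F.p (fun ω => A ω ∧ A₀ ω) := by linarith
    have hT := hTm _ h0 (fun ω h => h.1) (by linarith)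
    obtain ⟨B, k1, k2, k3⟩ := hrem h0 Q (fun s' => wmx w s'.2.2 (Q s')) hw hdeg hT hθ hn1 hn2
      (fun ω hω => by
        have h2 := hω.2
        rw [hA₀] at h2
        refine ⟨h2, ?_⟩
        obtain ⟨t, ht, h3⟩ := wmx_mem w (slam F w ω).2.2 (Q (slam F w ω))
        obtain ⟨h4, h5⟩ := (win_iff hw ω t).2 ht
        exact ⟨t, h4, h5, h3.le⟩)
    refine ⟨B, fun ω h => (k1 ω h).1, by linarith, fun ω hω => ?_⟩
    have h2 := k3 ω hω
    rw [div_le_iff₀ (by positivity)] at h2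
    have h3 := h2.trans (mul_le_mul_of_nonneg_right (hM ω (k1 ω hω).1) (by positivity))
    linarith
  · refine ⟨fun ω => A ω ∧ ¬ A₀ ω, fun ω h => h.1, by linarith, fun ω hω => ?_⟩
    have h2 := hω.2
    rw [hA₀] at h2
    push Not at h2
    exact h2.trans (by positivity)

/-- **The variation on a short window**, from the variation between the samples of the window. -/
theorem var_win (m D : ℕ) : ∃ (C : ℕ) (C₁ : ℝ), 1 ≤ C₁ ∧ ∀ {J : ℕ} {F : Fam m J} {w a s : ℕ}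
    {A : F.Ω → Prop} {V θ : ℝ} (Q : LnT F → Polynomial ℝ), 0 < Pe F.p A → w ≤ a → a ≤ J →
    (∀ s, (Q s).natDegree ≤ D) →
    (∀ (B' : F.Ω → Prop) (hB' : 0 < Pe F.p B'), Sub B' A → Pe F.p A ≤ 2 * Pe F.p B' →
      (Fam.sub F B' hB').Tm θ) → 0 ≤ θ → C₁ * (θ + 1) ≤ ((J : ℝ) - a) * Real.log 2 →
    C₁ * (θ + 1) ≤ s → 0 ≤ V →
    (∀ ω ω', A ω → A ω' → slam F a ω = slam F a ω' →
      |(Q (slam F w ω)).eval (F.t ω) - (Q (slam F w ω)).eval (F.t ω')| ≤ V) →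
    ∃ B : F.Ω → Prop, Sub B A ∧ Pe F.p A / 4 ≤ Pe F.p B ∧ ∀ ω, B ω →
      ∀ t : ℝ, |t - F.t ω| ≤ 2 / 2 ^ a →
        |(Q (slam F w ω)).eval t - (Q (slam F w ω)).eval (F.t ω)| ≤ 2 ^ (C + s) * V := by
  classical
  obtain ⟨C₁, hC₁, hcrv⟩ := crv m D
  obtain ⟨C, hmk⟩ := mkv_win D
  refine ⟨C, C₁, hC₁, ?_⟩
  intro J F w a s A V θ Q hA hwa haJ hdeg hTm hθ hn1 hn2 hV0 hV
  have hne : Nonempty F.Ω := by
    by_contra hcon
    rw [not_nonempty_iff] at hcon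
    have : Pe F.p A = 0 := by
      unfold Pe
      exact Finset.sum_eq_zero fun ω _ => (hcon.false ω).elim
    linarith
  obtain ⟨x, hx⟩ : ∃ x : LnT F → ℝ, ∀ ω, A ω → ∃ ω₀, A ω₀ ∧ slam F a ω₀ = slam F a ω ∧
      x (slam F a ω) = (Q (slam F w ω₀)).eval (F.t ω₀) := by
    refine ⟨fun s' => if h : ∃ ω₀, A ω₀ ∧ slam F a ω₀ = s' then
      (Q (slam F w h.choose)).eval (F.t h.choose) else 0, fun ω hω => ?_⟩
    have h : ∃ ω₀, A ω₀ ∧ slam F a ω₀ = slam F a ω := ⟨ω, hω, rfl⟩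
    refine ⟨h.choose, h.choose_spec.1, h.choose_spec.2, ?_⟩
    simp only [dif_pos h]
  obtain ⟨Qa, hQa⟩ : ∃ Qa : LnT F → Polynomial ℝ, Qa = fun s' =>
    Q (s'.1, s'.2.1, s'.2.2 / 2 ^ (a - w)) - Polynomial.C (x s') := ⟨_, rfl⟩
  have hQs : ∀ ω, Qa (slam F a ω) = Q (slam F w ω) - Polynomial.C (x (slam F a ω)) := fun ω => by
    rw [hQa]
    simp only
    rw [slam_coarse' F hwa haJ ω]
  obtain ⟨B, k1, k2, k3⟩ := hcrv (w := a) (s := s) (A := A) (M := V) (θ := θ) Qa hA haJ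
    (fun s' => by
      rw [hQa]
      exact (Polynomial.natDegree_sub_le _ _).trans (max_le (hdeg _) (by simp))) hTm hθ hn1 hn2 hV0
    (fun ω hω => by
      obtain ⟨ω₀, h1, h2, h3⟩ := hx ω hω
      rw [hQs, Polynomial.eval_sub, Polynomial.eval_C, h3]
      have e1 : slam F w ω₀ = slam F w ω := by
        rw [← slam_coarse' F hwa haJ ω, ← slam_coarse' F hwa haJ ω₀, h2]
      rw [e1]
      exact hV ω ω₀ hω h1 h2.symm)
  refine ⟨B, k1, k2, fun ω hω t ht => ?_⟩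
  have h1 := hmk (m := m) (F := F) (w := a) (w' := a) (K := 2 ^ s * V) (P := Qa (slam F a ω))
    (ω := ω) le_rfl haJ (by
      rw [hQa]
      exact (Polynomial.natDegree_sub_le _ _).trans (max_le (hdeg _) (by simp)))
    (fun t' h2 h3 => (le_wmx ((win_iff haJ ω t').1 ⟨h2, h3⟩)).trans (k3 ω hω)) t ht
  simp only [hQs, Polynomial.eval_sub, Polynomial.eval_C] at h1
  have e2 : (Q (slam F w ω)).eval t - (Q (slam F w ω)).eval (F.t ω) =
      (Q (slam F w ω)).eval t - x (slam F a ω) - ((Q (slam F w ω)).eval (F.t ω) -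
        x (slam F a ω)) := by ring
  rw [e2]
  refine h1.trans (le_of_eq ?_)
  rw [pow_add]
  field_simp

end Pool.NVX
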