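import Pool.Agent.H77.NV.Tt

/-!
# The literal of the family theorem for `c 2; c 3`, `c 1` and `c 2` thin

`NvT3`: the statement of the family theorem `nv_t3`, everything at the node `(a, w₂)`.
-/

set_option autoImplicit false

namespace Pool.NVX

open Finset Real MvPolynomial
open Pool.Agent.H49.Ent Pool.Agent.H32.Dense Pool.STK Pool.KA Pool.KSAT Pool.K2S Pool.PB Pool.S6C
open Pool.GEN Pool.CHT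
open Pool.SHR (dir mvp RelvH Shr ShrY)
open Pool.PB.Trl (rt rt_mem t_rt)
open Pool.FLF (Fam.sub)

/-- **The statement of the family theorem** for `c 0, c 1, c 2; c 3`, `c 1` and `c 2` thin. -/
def NvT3 (m D M : ℕ) : Prop := ∃ (C : ℕ) (C₁ : ℝ), 1 ≤ C₁ ∧
    ∀ {J : ℕ} {F : Fam m J} {c : ℕ → Fin m} {a w w₂ a₂ a₃ e E h s y lam₁ lam₂ D₂ : ℕ}
    {gN g g₂ g₃ Y : ℕ → ℕ} {κ θ : ℝ} {B₀ B : F.Ω → Prop}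
    {N T T₂ T₃ : PtT F → ℕ → MvPolynomial (Option (Fin m)) ℝ}
    {NH TH T₂H T₃H : LnT F → ℕ → MvPolynomial (Option (Fin m)) ℝ}
    {v : PtT F → Fin m → ℝ} {v' : LnT F → Fin m → ℝ},
    Set.InjOn c (Set.Iio 4) → w₂ = w + y → w₂ ≤ a → a ≤ a₂ → a₂ ≤ a₃ → a₃ + 1 ≤ J → C ≤ D₂ →
    0 < Pe F.p B → Sub B B₀ → ChOK F c 4 (fun _ => D) a w E gN B N NH →
    ChOK F c 3 (fun _ => D) a w₂ e g B₀ T TH → RelvH F c 3 a w₂ g Y D₂ h κ B₀ T →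
    ChOK F c 3 (fun _ => D) a₂ a₂ e g₂ B₀ T₂ T₂H → RelvF F c 3 a₂ a₂ g₂ D₂ h κ B₀ T₂ →
    ChOK F c 2 (fun _ => D) a₃ a₃ e g₃ B₀ T₃ T₃H →
    0 ≤ κ → κ * 2 ^ C * Pe F.p B₀ ≤ Pe F.p B → κ * 2 ^ C ≤ 1 →
    (∀ (B' : F.Ω → Prop) (hB' : 0 < Pe F.p B'), Sub B' B → Pe F.p B ≤ 2 ^ C * Pe F.p B' →
      (Fam.sub F B' hB').Tm θ) → 0 ≤ θ → C₁ * (θ + 1) ≤ ((J : ℝ) - a₃) * Real.log 2 →
    C₁ * (θ + 1) ≤ s → h ≤ s → (∀ l < 3, gN l ≤ g l + s) → (∀ l < 3, g l ≤ gN l + M * y) →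
    (∀ j < 3, Y j ≤ J) → (∀ l < 4, 2 * e + E + gN l + C * y ≤ J) →
    (∀ l < 3, 2 * e + E + g l + C * y ≤ J) → (∀ l < 3, e + g₂ l + C * y ≤ J) →
    (∀ l < 2, e + g₃ l + C * y ≤ J) → C * y ≤ gN 3 → C * (s + 1) ≤ y →
    (∀ ω, B ω → v (ptr F J ω) = v' (slam F a ω)) →
    (∀ x, v x (c 1) = 1 ∧ v x (c 0) = 0 ∧ ∀ k, k ≠ c 1 → k ≠ c 2 → v x k = 0) →
    (∀ ω, B ω → ShrY F c a (g 1) g T v s 2 ω) →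
    (∀ ω, B ω → ∀ b, NBx c (T (ptr F J ω)) g a (F.t ω) 2 b →
      |eval b (pderiv (some (c 1)) (TH (slam F w₂ ω) 2)) - v (ptr F J ω) (c 2)| ≤
        2 ^ (s + g 1) / 2 ^ g 2) →
    (∀ ω, B ω → ∀ t : ℝ, |t - F.t ω| ≤ 1 / 2 ^ a →
      |eval (bt F ω + (t - F.t ω) • bd F ω) (pderiv (some (c 1)) (TH (slam F w₂ ω) 2)) -
        v (ptr F J ω) (c 2)| ≤ 2 ^ (s + g 1) / 2 ^ g 2) →
    -- the direction `c 2`: the two-sided size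
    (∀ ω, B ω → ∀ t : ℝ, F.t ω - rt F w ω / 2 ^ w ≤ t → t ≤ F.t ω + (1 - rt F w ω) / 2 ^ w →
      |(hcl (c 2) (NH (slam F w ω) 3) (slam F w ω)).eval t| ≤ 2 ^ (a + lam₂) / 2 ^ gN 3) →
    (∀ ω, B ω → ∃ t : ℝ, F.t ω - rt F w ω / 2 ^ w ≤ t ∧ t ≤ F.t ω + (1 - rt F w ω) / 2 ^ w ∧
      2 ^ (a + lam₂) / 2 ^ gN 3 / 2 ^ s ≤
        |(hcl (c 2) (NH (slam F w ω) 3) (slam F w ω)).eval t|) →
    -- the direction `c 1` plus `q` times the direction `c 2`: the size, two-sided if it is large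
    (∀ ω, B ω → ∀ t : ℝ, F.t ω - rt F w ω / 2 ^ w ≤ t → t ≤ F.t ω + (1 - rt F w ω) / 2 ^ w →
      |(hcv (c 1) (c 2) (NH (slam F w ω) 2) (NH (slam F w ω) 3) (slam F w ω)).eval t| ≤
        2 ^ (a + lam₁) / 2 ^ gN 3) →
    (lam₂ + g 1 < lam₁ + gN 2 → ∀ ω, B ω → ∃ t : ℝ, F.t ω - rt F w ω / 2 ^ w ≤ t ∧
      t ≤ F.t ω + (1 - rt F w ω) / 2 ^ w ∧ 2 ^ (a + lam₁) / 2 ^ gN 3 / 2 ^ s ≤
        |(hcv (c 1) (c 2) (NH (slam F w ω) 2) (NH (slam F w ω) 3) (slam F w ω)).eval t|) →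
    -- the numbers
    gN 2 + C * y ≤ lam₂ → g 1 + a₃ + C * y ≤ g₃ 1 + a → g₂ 1 + a₃ + C * y ≤ g₃ 1 + a →
    g 2 + a₂ + C * y ≤ g₂ 2 + a → False

end Pool.NVX
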