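import Pool.Agent.H39.NV.ClsB
import Pool.Agent.H82.MV.N23t

/-!
# The variation of the closed derivative in a class, for `c 2; c 3`, `c 1` and `c 2` thin

`NbT`: the statement that there is no bad event. `nvd_t`: the variation in a class. The nodes for
`c 0, c 1, c 2` at the pairs `(a, w₂)`, `(a₂, a₂)`, `(a₃, a₃)` near the pair `(a, w)`, and the
variation for `c 1; c 2` at the pair `(a, w₂)`; the constant depends only on the dimension, the degree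
and the slopes, `s` is a small number and `y = w₂ - w`.
-/

set_option autoImplicit false

namespace Pool.NVX

open Finset Real MvPolynomial
open Pool.Agent.H49.Ent Pool.Agent.H32.Dense Pool.STK Pool.KA Pool.KSAT Pool.K2S Pool.PB Pool.S6C
open Pool.GEN Pool.CHT
open Pool.SHR (dir mvp RelvH Shr NodD NVD NVG relvF_low relvH_of)
open Pool.PB.Trl (rt rt_mem t_rt)
open Pool.FLF (Fam.sub)
open Pool.Z3 (Nod NodS NodS.sub nods_all share_ex)

variable {m J : ℕ}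

/-- **There is no bad event**, for `c 2; c 3`, `c 1` and `c 2` thin. -/
def NbT (m D M : ℕ) : Prop := ∃ (C : ℕ) (C₁ : ℝ), 1 ≤ C₁ ∧
    ∀ {J : ℕ} {F : Fam m J} {c : ℕ → Fin m} {a w w₂ a₂ a₃ e E h s s' y S Q N D₂ Y₁ y₁ V₁ : ℕ}
    {gN g g₂ g₃ Y : ℕ → ℕ} {κ θ : ℝ} {A : F.Ω → Prop}
    {G : PtT F → ℕ → MvPolynomial (Option (Fin m)) ℝ}
    {H : LnT F → ℕ → MvPolynomial (Option (Fin m)) ℝ}, 0 < Pe F.p A →
    Set.InjOn c (Set.Iio 4) → w₂ = w + y → w₂ ≤ a → a ≤ a₂ → a₂ ≤ a₃ → a₃ + 1 ≤ J →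
    ChOK F c 4 (fun _ => D) a w E gN A G H →
    (∀ ω, A ω → 2 ^ Q / 2 ^ gN 3 <
      wmx w (slam F w ω).2.2 (hcl (c 2) (H (slam F w ω) 3) (slam F w ω))) →
    (∀ (B' : F.Ω → Prop) (hB' : 0 < Pe F.p B'), Sub B' A → Pe F.p A ≤ 2 * Pe F.p B' →
      (Fam.sub F B' hB').Tm θ) →
    (∀ A' : F.Ω → Prop, Sub A' A → Pe F.p A ≤ 4 * (N + 1) * Pe F.p A' →
      ∃ B : F.Ω → Prop, Sub B A' ∧ 0 < Pe F.p B ∧
      (∀ (B' : F.Ω → Prop) (hB' : 0 < Pe F.p B'), Sub B' B →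
        Pe F.p B ≤ 2 ^ C * (N + 1) * Pe F.p B' → (Fam.sub F B' hB').Tm θ) ∧
      ∃ (T T₂ T₃ : PtT F → ℕ → MvPolynomial (Option (Fin m)) ℝ)
        (TH T₂H T₃H : LnT F → ℕ → MvPolynomial (Option (Fin m)) ℝ),
        ChOK F c 3 (fun _ => D) a w₂ e g B T TH ∧ RelvH F c 3 a w₂ g Y D₂ h κ B T ∧
        NVG F c 1 2 a w₂ a g Y₁ y₁ V₁ κ B T TH ∧
        ChOK F c 3 (fun _ => D) a₂ a₂ e g₂ B T₂ T₂H ∧ RelvF F c 3 a₂ a₂ g₂ D₂ h κ B T₂ ∧
        ChOK F c 2 (fun _ => D) a₃ a₃ e g₃ B T₃ T₃H) →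
    C ≤ D₂ → 0 ≤ κ → κ * 2 ^ C * (N + 1) ≤ 1 → 0 ≤ θ →
    C₁ * (θ + 1) ≤ ((J : ℝ) - a₃) * Real.log 2 →
    C₁ * (θ + 1) ≤ s' → h ≤ s' → C * (s' + 1) ≤ s → C * (s + 1) ≤ y → V₁ ≤ g 1 + s' →
    (∀ l < 3, gN l ≤ g l + s) → (∀ l < 3, g l ≤ gN l + M * y) →
    (∀ j < 3, Y j ≤ J) → (∀ l < 4, 2 * e + E + gN l + C * y ≤ J) →
    (∀ l < 3, 2 * e + E + g l + C * y ≤ J) → (∀ l < 3, e + g₂ l + C * y ≤ J) →
    (∀ l < 2, e + g₃ l + C * y ≤ J) → C * y ≤ gN 3 → (∀ l < 3, gN l ≤ S) →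
    C * (y + a + e + E + g 1 + S + gN 3 + 1) ≤ N * s → gN 2 + a + C * y ≤ Q →
    g 1 + a₃ + C * y ≤ g₃ 1 + a → g₂ 1 + a₃ + C * y ≤ g₃ 1 + a →
    g 2 + a₂ + C * y ≤ g₂ 2 + a → False

/-- **The variation of the closed derivative in a class**, for `c 2; c 3`, `c 1` and `c 2` thin. -/
theorem nvd_t {m D M : ℕ} (h2 : NbT m D (M + 1)) : NvdT m D M := by
  classical
  obtain ⟨C, C₁, hC₁, hnb⟩ := h2
  have hCr : (0 : ℝ) ≤ C := Nat.cast_nonneg C
  have hMr : (0 : ℝ) ≤ M := Nat.cast_nonneg M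
  refine ⟨C * (3 * C + 3) + C + 20, by nlinarith, ?_⟩
  intro S c r β e e' E E' ϱ ϱ' a w w₂ w' a₂ a₃ Li Lo Li₁ Lo₁ s y hr hS hc hs he' hE hϱ hE' hϱ' hLow
    hw0 hww hwa hww₂ hKsy hw₂a haa₂ ha₂₃ ha₃ hKa hN₁ hN₂ hN₃ hV1 hLo₁ hb1 hb2 hr1 hr2 hr3 hr4
    hl1 hl3 hl4 hl5
  obtain ⟨Kc, hKc⟩ : ∃ Kc : ℝ, Kc = C * (3 * C + 3) := ⟨_, rfl⟩
  rw [← hKc] at hKsy hKa hr1 hr2 hr3 hr4 hl1 hl3 hl4 hl5
  have hKc0 : 0 ≤ Kc := by rw [hKc]; positivity
  have hKs0 : 0 ≤ Kc * s := mul_nonneg hKc0 hs.le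
  have hCs : 0 ≤ C * s := mul_nonneg hCr hs.le
  have hsy : 20 * s ≤ y := by linarith
  have hy0 : 0 < y := by linarith
  have hCy : 0 ≤ C * y := mul_nonneg hCr hy0.le
  have hKy : 0 ≤ Kc * y := mul_nonneg hKc0 hy0.le
  have ha1 : a ≤ 1 := by linarith
  have ha0 : 0 ≤ a := by linarith
  have hc3 : Set.InjOn c (Set.Iio 3) := hc.mono (Set.Iio_subset_Iio (by omega))
  have hc4 : Set.InjOn c (Set.Iio 4) := hc.mono (Set.Iio_subset_Iio (by omega))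
  have haa₃ : a ≤ a₃ := haa₂.trans ha₂₃
  -- the nodes
  obtain ⟨Dr₁, δ₁, hδ₁, hV1⟩ := hV1
  obtain ⟨σ, hσ⟩ : ∃ σ, σ = min (min (s / 8) ϱ') δ₁ := ⟨_, rfl⟩
  have hσ0 : 0 < σ := by rw [hσ]; exact lt_min (lt_min (by positivity) hϱ') hδ₁
  have hσ1 : σ ≤ s / 8 := by rw [hσ]; exact (min_le_left _ _).trans (min_le_left _ _)
  have hσ2 : σ ≤ ϱ' := by rw [hσ]; exact (min_le_left _ _).trans (min_le_right _ _)
  have hσ3 : σ ≤ δ₁ := by rw [hσ]; exact min_le_right _ _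
  obtain ⟨η, hη⟩ : ∃ η, η = min (s / 8) δ₁ := ⟨_, rfl⟩
  have hη0 : 0 < η := by rw [hη]; exact lt_min (by positivity) hδ₁
  have hη1 : η ≤ s / 8 := by rw [hη]; exact min_le_left _ _
  have hη2 : η ≤ δ₁ := by rw [hη]; exact min_le_right _ _
  obtain ⟨A, hA⟩ : ∃ A : ℕ → ℝ, A = fun i => if i = 2 then a₃ else if i = 1 then a₂ else a :=
    ⟨_, rfl⟩
  obtain ⟨W, hW⟩ : ∃ W : ℕ → ℝ, W = fun i => if i = 0 then w₂ else if i = 1 then a₂ else a₃ :=
    ⟨_, rfl⟩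
  have hA0 : A 0 = a := by rw [hA]; simp
  have hA1 : A 1 = a₂ := by rw [hA]; simp
  have hA2 : A 2 = a₃ := by rw [hA]; simp
  have hW0 : W 0 = w₂ := by rw [hW]; simp
  have hW1 : W 1 = a₂ := by rw [hW]; simp
  have hW2 : W 2 = a₃ := by rw [hW]; simp
  have hnod : ∀ i < 3, NodD S c r D β e' E' ϱ' (A i) (W i) := by
    intro i hi
    interval_cases i
    · rw [hA0, hW0]; exact hN₁
    · rw [hA1, hW1]; exact hN₂
    · rw [hA2, hW2]; exact hN₃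
  have hln : 0 < Real.log 2 := Real.log_pos (by norm_num)
  have hln1 : Real.log 2 ≤ 1 := by
    have := Real.log_two_lt_d9
    linarith
  have hC₁0 : 0 < C₁ := by linarith
  have h1a₃ : 0 < (1 - a₃) * Real.log 2 := mul_pos (by linarith) hln
  obtain ⟨θ, hθ⟩ : ∃ θ, θ = min ((1 - a₃) * Real.log 2 / (2 * C₁)) (s / C₁) := ⟨_, rfl⟩
  have hθ0 : 0 < θ := by rw [hθ]; exact lt_min (by positivity) (by positivity)
  have hθ1 : C₁ * θ ≤ (1 - a₃) * Real.log 2 / 2 := by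
    have h3 : θ ≤ (1 - a₃) * Real.log 2 / (2 * C₁) := by rw [hθ]; exact min_le_left _ _
    rw [le_div_iff₀ (by positivity)] at h3
    linarith
  have hθ2 : C₁ * θ ≤ s := by
    have h3 : θ ≤ s / C₁ := by rw [hθ]; exact min_le_right _ _
    rw [le_div_iff₀ hC₁0] at h3
    linarith
  obtain ⟨N, hN⟩ := exists_nat_ge ((7 * (C : ℝ) + 10) / s)
  have hN1 : 7 * (C : ℝ) + 10 ≤ N * s := by
    rw [div_le_iff₀ hs] at hN
    exact hN
  have hNr : (0 : ℝ) ≤ N := Nat.cast_nonneg N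
  obtain ⟨K₂, d, ψn, hK₂, hψn, hd, hbas⟩ := own_basB (k := 3) (Dr := max C Dr₁)
    (M := 2 ^ C * (N + 1)) (by positivity) hS hσ0 hσ2 hη0 hθ0 hnod
  obtain ⟨ψ₁, hψ₁, hV2⟩ := hV1 (d 0) (fun j hj => ⟨(hd 0 (by norm_num) j hj).1,
    (hd 0 (by norm_num) j hj).2.trans hσ3⟩) ψn hψn
  have hV3 := hV2 (1 / K₂) (by positivity)
  obtain ⟨ψm, hψm⟩ : ∃ ψm, ψm = min ψn ψ₁ := ⟨_, rfl⟩
  have hψm0 : 0 < ψm := by rw [hψm]; exact lt_min hψn hψ₁
  have hψm1 : ψm ≤ ψn := by rw [hψm]; exact min_le_left _ _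
  have hψm2 : ψm ≤ ψ₁ := by rw [hψm]; exact min_le_right _ _
  obtain ⟨τ, hτ, J₀, hcls⟩ := hbas.and hV3
  refine ⟨0, s / 8, by positivity, ?_⟩
  intro dN hdN ψ₀ hψ₀
  refine ⟨τ / 4, by positivity, ?_⟩
  intro κ₁ hκ₁
  obtain ⟨J₁, hJ₁⟩ := share_ex (ψ := τ / 4) (κ := κ₁ / (8 * (N + 1))) (by positivity)
    (by positivity)
  obtain ⟨J₂, hJ₂⟩ := share_ex (ψ := ψm) (κ := 1 / (2 ^ C * (N + 1))) hψm0 (by positivity)
  obtain ⟨J₃, hJ₃⟩ := exists_nat_gt ((C + C₁ + M + 10) / s)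
  obtain ⟨J₄, hJ₄⟩ := exists_nat_gt (2 * C₁ / ((1 - a₃) * Real.log 2))
  refine ⟨τ / 4, by positivity, max (max J₀ J₁) (max J₂ (max J₃ (max J₄ (C + 1)))), ?_⟩
  intro J hJ F A' hA' B₀ G H hB₀ hP₀ hNod B' hB' hP' v v' hv hv1 _
  have hj0 : J₀ ≤ J := ((le_max_left _ _).trans (le_max_left _ _)).trans hJ
  have hj1 : J₁ ≤ J := ((le_max_right _ _).trans (le_max_left _ _)).trans hJ
  have hj2 : J₂ ≤ J := ((le_max_left _ _).trans (le_max_right _ _)).trans hJ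
  have hj3 : J₃ ≤ J := ((le_max_left _ _).trans ((le_max_right _ _).trans (le_max_right _ _))).trans
    hJ
  have hj4 : J₄ ≤ J := ((le_max_left _ _).trans ((le_max_right _ _).trans
    ((le_max_right _ _).trans (le_max_right _ _)))).trans hJ
  have hj5 : C + 1 ≤ J := ((le_max_right _ _).trans ((le_max_right _ _).trans
    ((le_max_right _ _).trans (le_max_right _ _)))).trans hJ
  have hJC : (C : ℝ) + 1 ≤ J := by exact_mod_cast hj5
  have hJr : (1 : ℝ) ≤ J := by linarith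
  have hJ0 : (0 : ℝ) ≤ J := by linarith
  have hsJ : C + C₁ + M + 10 < s * J := by
    have h3 : ((C : ℝ) + C₁ + M + 10) / s < J := hJ₃.trans_le (by exact_mod_cast hj3)
    rw [div_lt_iff₀ hs] at h3
    linarith
  have haJ : 2 * C₁ < (1 - a₃) * Real.log 2 * J := by
    have h3 : 2 * C₁ / ((1 - a₃) * Real.log 2) < J := hJ₄.trans_le (by exact_mod_cast hj4)
    rw [div_lt_iff₀ h1a₃] at h3
    linarith
  obtain ⟨gN, hgN⟩ : ∃ gN : ℕ → ℕ, gN = fun j => ⌊(β j a w - dN j) * (J : ℝ)⌋₊ := ⟨_, rfl⟩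
  rw [← hgN] at hNod ⊢
  obtain ⟨V, hV⟩ : ∃ V, V = ⌊(β 2 a w + Lo) * (J : ℝ)⌋₊ := ⟨_, rfl⟩
  rw [← hV]
  obtain ⟨Q, hQ⟩ : ∃ Q, Q = V + ⌊w' * (J : ℝ)⌋₊ := ⟨_, rfl⟩
  have hfl : ∀ x y : ℝ, x ≤ y → ⌊x * (J : ℝ)⌋₊ ≤ ⌊y * (J : ℝ)⌋₊ := fun x y h =>
    Nat.floor_le_floor (mul_le_mul_of_nonneg_right h hJ0)
  have hfJ : ∀ x : ℝ, x ≤ 1 → ⌊x * (J : ℝ)⌋₊ ≤ J := fun x h => by
    have h3 := hfl x 1 h
    rwa [one_mul, Nat.floor_natCast] at h3
  have hfu : ∀ x : ℝ, 0 ≤ x → ((⌊x * (J : ℝ)⌋₊ : ℕ) : ℝ) ≤ x * J := fun x h =>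
    Nat.floor_le (mul_nonneg h hJ0)
  have hfd : ∀ x : ℝ, x * (J : ℝ) < (⌊x * (J : ℝ)⌋₊ : ℕ) + 1 := fun x => Nat.lt_floor_add_one _
  have hww'J : ⌊w * (J : ℝ)⌋₊ ≤ ⌊w' * (J : ℝ)⌋₊ := hfl _ _ hww
  have hw'J : ⌊w' * (J : ℝ)⌋₊ ≤ J := hfJ _ (by linarith)
  -- the bad event
  obtain ⟨Bd, hBd⟩ : ∃ Bd : F.Ω → Prop, Bd = fun ω => 2 ^ Q / 2 ^ gN 3 <
    wmx ⌊w * (J : ℝ)⌋₊ (slam F ⌊w * (J : ℝ)⌋₊ ω).2.2
      (hcl (c 2) (H (slam F ⌊w * (J : ℝ)⌋₊ ω) 3) (slam F ⌊w * (J : ℝ)⌋₊ ω)) := ⟨_, rfl⟩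
  have hsplit := pe_spl F.p B' Bd
  by_cases hbig : Pe F.p (fun ω => B' ω ∧ Bd ω) ≤ Pe F.p B' / 2
  · refine ⟨fun ω => B' ω ∧ ¬ Bd ω, fun ω h => h.1, by linarith, ?_⟩
    intro ω ω' hω hω' hsl
    have hωB := hB' ω hω.1
    obtain ⟨e1, e0⟩ := hv1 ω hω.1
    have hdep := hNod.top.depH (slam F ⌊w * (J : ℝ)⌋₊ ω) 3
    rw [dir_two3 hc3 hdep e1 e0, dir_two3 hc3 hdep e1 e0]
    have h3 : wmx ⌊w * (J : ℝ)⌋₊ (slam F ⌊w * (J : ℝ)⌋₊ ω).2.2
        (hcl (c 2) (H (slam F ⌊w * (J : ℝ)⌋₊ ω) 3) (slam F ⌊w * (J : ℝ)⌋₊ ω)) ≤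
        2 ^ Q / 2 ^ gN 3 := by
      have h4 := hω.2
      rw [hBd] at h4
      exact not_lt.1 h4
    refine (gcl_var hww'J hw'J hsl h3).trans (le_of_eq ?_)
    rw [hQ, pow_add]
    field_simp
  · exfalso
    push Not at hbig
    have hPB' : 0 ≤ Pe F.p B' := Pe_nonneg F.isLaw _
    have hbd0 : 0 < Pe F.p (fun ω => B' ω ∧ Bd ω) := by linarith
    -- the parts of the bad event are in the class
    have hin : ∀ A'' : F.Ω → Prop, Sub A'' (fun ω => B' ω ∧ Bd ω) →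
        Pe F.p (fun ω => B' ω ∧ Bd ω) ≤ 4 * (N + 1) * Pe F.p A'' → S.St τ J F A'' := by
      intro A'' h3 h4
      have hS' := S.res (τ' := τ / 2) (by positivity) hA'
        (fun ω h => hB₀ ω (hB' ω (h3 ω h).1)) (by
          have q1 := hJ₁ J hj1
          have q2 : Real.exp (-(τ / 2 * J)) = Real.exp (-(τ / 4 * J)) * Real.exp (-(τ / 4 * J)) := by
            rw [← Real.exp_add]
            congr 1
            ring
          rw [q2]
          have q3 : 0 ≤ Pe F.p A' := Pe_nonneg F.isLaw _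
          have q4 := (Real.exp_pos (-(τ / 4 * (J : ℝ)))).le
          calc Real.exp (-(τ / 4 * J)) * Real.exp (-(τ / 4 * J)) * Pe F.p A'
              ≤ Real.exp (-(τ / 4 * J)) * (κ₁ / (8 * (N + 1))) * Pe F.p A' :=
                mul_le_mul_of_nonneg_right (mul_le_mul_of_nonneg_left q1 q4) q3
            _ = Real.exp (-(τ / 4 * J)) * (κ₁ * Pe F.p A') / (8 * (N + 1)) := by ring
            _ ≤ Real.exp (-(τ / 4 * J)) * Pe F.p B₀ / (8 * (N + 1)) :=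
                div_le_div_of_nonneg_right (mul_le_mul_of_nonneg_left hP₀ q4) (by positivity)
            _ ≤ Pe F.p B' / (8 * (N + 1)) := div_le_div_of_nonneg_right hP' (by positivity)
            _ ≤ _ := by
              rw [div_le_iff₀ (by positivity)]
              linarith)
      exact S.mono (by linarith) hS'
    -- the numbers
    obtain ⟨e₁, he₁⟩ : ∃ e₁, e₁ = ⌊e' * (J : ℝ)⌋₊ := ⟨_, rfl⟩
    obtain ⟨E₁, hE₁⟩ : ∃ E₁, E₁ = ⌊(E + ϱ) * (J : ℝ)⌋₊ := ⟨_, rfl⟩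
    obtain ⟨s₁, hs₁⟩ : ∃ s₁, s₁ = ⌊((3 * C + 3) * s) * (J : ℝ)⌋₊ := ⟨_, rfl⟩
    obtain ⟨s₂, hs₂⟩ : ∃ s₂, s₂ = ⌊(2 * s) * (J : ℝ)⌋₊ := ⟨_, rfl⟩
    obtain ⟨a₁, ha₁⟩ : ∃ a₁, a₁ = ⌊a * (J : ℝ)⌋₊ := ⟨_, rfl⟩
    obtain ⟨a₂', ha₂'⟩ : ∃ a₂', a₂' = ⌊a₂ * (J : ℝ)⌋₊ := ⟨_, rfl⟩
    obtain ⟨a₃', ha₃'⟩ : ∃ a₃', a₃' = ⌊a₃ * (J : ℝ)⌋₊ := ⟨_, rfl⟩
    obtain ⟨w₁, hw₁⟩ : ∃ w₁, w₁ = ⌊w * (J : ℝ)⌋₊ := ⟨_, rfl⟩
    obtain ⟨w₂', hw₂'⟩ : ∃ w₂', w₂' = ⌊w₂ * (J : ℝ)⌋₊ := ⟨_, rfl⟩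
    obtain ⟨g, hg⟩ : ∃ g : ℕ → ℕ → ℕ, g = fun i l => ⌊(β l (A i) (W i) - d i l) * (J : ℝ)⌋₊ :=
      ⟨_, rfl⟩
    have hw12 : w₁ ≤ w₂' := by
      rw [hw₁, hw₂']
      exact hfl _ _ (by linarith)
    obtain ⟨y', hy'⟩ : ∃ y', y' = w₂' - w₁ := ⟨_, rfl⟩
    have hy'' : w₂' = w₁ + y' := by omega
    have sJ1 : 0 ≤ s * J := by positivity
    have CsJ : 0 ≤ C * (s * J) := mul_nonneg hCr sJ1
    have s1u : (s₁ : ℝ) ≤ 3 * (C * (s * J)) + 3 * (s * J) := by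
      rw [hs₁]
      have := hfu ((3 * C + 3) * s) (by positivity)
      linarith
    have s1d : 3 * (C * (s * J)) + 3 * (s * J) < s₁ + 1 := by
      rw [hs₁]
      have := hfd ((3 * C + 3) * s)
      linarith
    have s2u : (s₂ : ℝ) ≤ 2 * (s * J) := by
      rw [hs₂]
      have := hfu (2 * s) (by positivity)
      linarith
    have s2d : 2 * (s * J) < s₂ + 1 := by
      rw [hs₂]
      have := hfd (2 * s)
      linarith
    have e1u : (e₁ : ℝ) ≤ e' * J := by rw [he₁]; exact hfu _ he'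
    have E1u : (E₁ : ℝ) ≤ (E + ϱ) * J := by rw [hE₁]; exact hfu _ (by linarith)
    have a1u : (a₁ : ℝ) ≤ a * J := by rw [ha₁]; exact hfu _ ha0
    have a1d : a * J < a₁ + 1 := by rw [ha₁]; exact hfd _
    have a2u : (a₂' : ℝ) ≤ a₂ * J := by rw [ha₂']; exact hfu _ (by linarith)
    have a3u : (a₃' : ℝ) ≤ a₃ * J := by rw [ha₃']; exact hfu _ (by linarith)
    have w1u : (w₁ : ℝ) ≤ w * J := by rw [hw₁]; exact hfu _ hw0
    have w1d : w * J < w₁ + 1 := by rw [hw₁]; exact hfd _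
    have w2u : (w₂' : ℝ) ≤ w₂ * J := by rw [hw₂']; exact hfu _ (by linarith)
    have w2d : w₂ * J < w₂' + 1 := by rw [hw₂']; exact hfd _
    have hwy : w₂ * J = w * J + y * J := by rw [hww₂]; ring
    have hyr : (w₂' : ℝ) = w₁ + y' := by rw [hy'']; push_cast; ring
    have yu : (y' : ℝ) ≤ y * J + 1 := by linarith
    have yd : y * J ≤ y' + 1 := by linarith
    have w'd : w' * J < (⌊w' * (J : ℝ)⌋₊ : ℕ) + 1 := hfd _
    have Vd : (β 2 a w + Lo) * J < V + 1 := by rw [hV]; exact hfd _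
    have Qd : (Q : ℝ) = V + (⌊w' * (J : ℝ)⌋₊ : ℕ) := by rw [hQ]; push_cast; ring
    -- the precisions of the given node
    have hβN : ∀ l < 4, a ≤ β l a w := fun l hl =>
      hLow l (by omega) a w hw0 (by linarith) ha1
    have gNu : ∀ l < 4, (gN l : ℝ) ≤ β l a w * J := fun l hl => by
      have h3 := hdN l (by omega)
      have h4 := hβN l hl
      rw [hgN]
      refine (hfu _ (by linarith)).trans ?_
      exact mul_le_mul_of_nonneg_right (by linarith) hJ0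
    have gNd : ∀ l < 4, β l a w * J - s / 8 * J < gN l + 1 := fun l hl => by
      have h3 := hdN l (by omega)
      have h4 := hfd (β l a w - dN l)
      rw [hgN]
      have h5 : dN l * J ≤ s / 8 * J := mul_le_mul_of_nonneg_right h3.2 hJ0
      simp only
      linarith
    -- the precisions of the own nodes
    have hAW : ∀ i < 3, 0 ≤ W i ∧ W i ≤ A i ∧ A i ≤ 1 ∧ a ≤ A i := by
      intro i hi
      interval_cases i
      · rw [hA0, hW0]; exact ⟨by linarith, hw₂a, by linarith, le_rfl⟩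
      · rw [hA1, hW1]; exact ⟨by linarith, le_rfl, by linarith, haa₂⟩
      · rw [hA2, hW2]; exact ⟨by linarith, le_rfl, ha₃.le, haa₃⟩
    have gu : ∀ i < 3, ∀ l < 3, (g i l : ℝ) ≤ β l (A i) (W i) * J := fun i hi l hl => by
      have h3 := hd i hi l (by omega)
      obtain ⟨p1, p2, p3, p4⟩ := hAW i hi
      have h4 := hLow l (by omega) (A i) (W i) p1 p2 p3
      have h5 : s / 8 ≤ a := by linarith
      rw [hg]
      refine (hfu _ (by linarith)).trans ?_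
      exact mul_le_mul_of_nonneg_right (by linarith) hJ0
    have gd : ∀ i < 3, ∀ l < 3, β l (A i) (W i) * J - s / 8 * J < g i l + 1 := fun i hi l hl => by
      have h3 := hd i hi l (by omega)
      have h4 := hfd (β l (A i) (W i) - d i l)
      rw [hg]
      have h5 : d i l * J ≤ s / 8 * J := mul_le_mul_of_nonneg_right (by linarith) hJ0
      simp only
      linarith
    have gu0 : ∀ l < 3, (g 0 l : ℝ) ≤ β l a w₂ * J := fun l hl => by
      have := gu 0 (by norm_num) l hl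
      rwa [hA0, hW0] at this
    have gu1 : ∀ l < 3, (g 1 l : ℝ) ≤ β l a₂ a₂ * J := fun l hl => by
      have := gu 1 (by norm_num) l hl
      rwa [hA1, hW1] at this
    have gu2 : ∀ l < 3, (g 2 l : ℝ) ≤ β l a₃ a₃ * J := fun l hl => by
      have := gu 2 (by norm_num) l hl
      rwa [hA2, hW2] at this
    have gd0 : ∀ l < 3, β l a w₂ * J - s / 8 * J < g 0 l + 1 := fun l hl => by
      have := gd 0 (by norm_num) l hl
      rwa [hA0, hW0] at this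
    have gd1 : ∀ l < 3, β l a₂ a₂ * J - s / 8 * J < g 1 l + 1 := fun l hl => by
      have := gd 1 (by norm_num) l hl
      rwa [hA1, hW1] at this
    have gd2 : ∀ l < 3, β l a₃ a₃ * J - s / 8 * J < g 2 l + 1 := fun l hl => by
      have := gd 2 (by norm_num) l hl
      rwa [hA2, hW2] at this
    have mJ : ∀ {x y : ℝ}, x ≤ y → x * J ≤ y * J := fun h => mul_le_mul_of_nonneg_right h hJ0
    have Cs1 : (C : ℝ) * (s₁ + 1) ≤ Kc * (s * J) + C := by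
      have h3 := mul_le_mul_of_nonneg_left s1u hCr
      have h4 : Kc * (s * J) = C * (3 * (C * (s * J)) + 3 * (s * J)) := by rw [hKc]; ring
      linarith only [h3, h4]
    have Cs2 : (C : ℝ) * (s₂ + 1) ≤ 2 * (C * (s * J)) + C := by
      have h3 := mul_le_mul_of_nonneg_left s2u hCr
      linarith only [h3]
    have KsJ : 0 ≤ Kc * (s * J) := mul_nonneg hKc0 sJ1
    have yJ0 : 0 ≤ y * J := by positivity
    have ysJ : 20 * (s * J) ≤ y * J := by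
      have := mJ hsy
      linarith
    have KyJ : 0 ≤ Kc * (y * J) := mul_nonneg hKc0 yJ0
    have Cy1 : (C : ℝ) * y' ≤ C * (y * J) + C := by
      have h3 := mul_le_mul_of_nonneg_left yu hCr
      linarith only [h3]
    have CyJ : 0 ≤ C * (y * J) := mul_nonneg hCr yJ0
    -- the margin
    have Ky1 : (C : ℝ) * y' + C + M + 10 ≤ (Kc + C + 20) * y * J := by
      have e3 : (Kc + C + 20) * y * J = Kc * (y * J) + C * (y * J) + 20 * (y * J) := by ring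
      rw [e3]
      linarith only [Cy1, KyJ, ysJ, hsJ, hC₁, hCr, sJ1, hMr, yJ0]
    have hKsyJ : Kc * (s * J) + C * (s * J) + 20 * (s * J) ≤ y * J := by
      have := mJ hKsy
      linarith
    -- the numbers as real numbers
    have hβa : 0 ≤ β 1 a w₂ := by
      have := hLow 1 (by omega) a w₂ (by linarith) hw₂a (by linarith)
      linarith
    refine hnb (F := F) (c := c) (a := a₁) (w := w₁) (w₂ := w₂') (a₂ := a₂') (a₃ := a₃')
      (e := e₁) (E := E₁) (h := ⌊s / 8 * (J : ℝ)⌋₊) (s := s₁) (s' := s₂) (y := y') (S := J) (Q := Q)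
      (N := N) (D₂ := max C Dr₁) (Y₁ := ⌊(β 1 a w₂ + Li₁) * (J : ℝ)⌋₊) (y₁ := ⌊δ₁ * (J : ℝ)⌋₊)
      (V₁ := ⌊(β 1 a w₂ + Lo₁) * (J : ℝ)⌋₊) (gN := gN) (g := g 0) (g₂ := g 1) (g₃ := g 2)
      (Y := fun l => if l < r then ⌊(1 - ϱ') * (J : ℝ)⌋₊ else ⌊(1 - (E' + ϱ')) * (J : ℝ)⌋₊)
      (κ := Real.exp (-(ψm * J))) (θ := θ * J) (A := fun ω => B' ω ∧ Bd ω) (G := G) (H := H)
      hbd0 hc4 hy'' ?_ ?_ ?_ ?_ ?_ ?_ ?_ ?_ (le_max_left _ _) (Real.exp_pos _).le ?_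
      (by positivity) ?_ ?_ ?_ ?_ ?_ ?_ ?_ ?_ ?_ ?_ ?_ ?_ ?_ ?_ ?_ ?_ ?_ ?_ ?_ ?_
    · rw [hw₂', ha₁]; exact hfl _ _ hw₂a
    · rw [ha₁, ha₂']; exact hfl _ _ haa₂
    · rw [ha₂', ha₃']; exact hfl _ _ ha₂₃
    · -- the room
      have h3 : (1 : ℝ) ≤ (1 - a₃) * J := by
        have h4 : (1 - a₃) * Real.log 2 * J ≤ (1 - a₃) * J := by
          have h5 : (1 - a₃) * Real.log 2 ≤ (1 - a₃) * 1 :=
            mul_le_mul_of_nonneg_left hln1 (by linarith)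
          have h6 := mul_le_mul_of_nonneg_right h5 hJ0
          linarith
        linarith
      have h4 : (a₃' : ℝ) + 1 ≤ J := by linarith
      exact_mod_cast h4
    · rw [ha₁, hw₁, hE₁]
      exact (hNod.top.mono (by omega) (fun _ => le_rfl) le_rfl le_rfl).sub fun ω h => hB' ω h.1
    · intro ω hω
      have h3 := hω.2
      rw [hBd] at h3
      rw [hw₁]
      exact h3
    · intro B'' hB'' h3 h4
      exact (hcls J hj0 F B'' (hin B'' h3 (h4.trans (mul_le_mul_of_nonneg_right (by linarith)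
        hB''.le)))).1.2 hB''
    · intro A'' h3 h4
      obtain ⟨⟨⟨B, l1, l2, l3, l4⟩, -⟩, l5⟩ := hcls J hj0 F A'' (hin A'' h3 h4)
      have hBpos : 0 < Pe F.p B := by
        have h5 : 0 < Pe F.p A'' := by
          by_contra h6
          push Not at h6
          have h7 : (0 : ℝ) ≤ 4 * (N + 1) := by positivity
          have h8 := mul_nonpos_of_nonneg_of_nonpos h7 h6
          linarith
        by_contra h6
        push Not at h6
        have h8 := mul_nonpos_of_nonneg_of_nonpos hK₂.le h6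
        linarith
      refine ⟨B, l1, hBpos, l3, ?_⟩
      obtain ⟨T, TH, n0⟩ := l4 0 (by norm_num)
      obtain ⟨T₂, T₂H, n1⟩ := l4 1 (by norm_num)
      obtain ⟨T₃, T₃H, n2⟩ := l4 2 (by norm_num)
      have hKB : 1 / K₂ * Pe F.p A'' ≤ Pe F.p B := by
        rw [one_div, inv_mul_le_iff₀ hK₂]
        exact l2
      have hex : Real.exp (-(ψn * J)) ≤ Real.exp (-(ψm * J)) * 1 := by
        rw [mul_one]
        refine Real.exp_le_exp.2 ?_
        have := mul_le_mul_of_nonneg_right hψm1 hJ0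
        linarith
      have hone : 1 * Pe F.p B ≤ Pe F.p B := by rw [one_mul]
      rw [hA0, hW0] at n0
      have hnv := (l5 B T TH l1 hKB ⟨n0.lst, n0.top.mono le_rfl (fun _ => le_rfl) le_rfl
        (hfl _ _ (by linarith)), n0.rlY.mono (le_max_right _ _) (hfl _ _ hη2) le_rfl⟩).mono
        le_rfl le_rfl le_rfl (κ' := Real.exp (-(ψm * J))) (by
          refine Real.exp_le_exp.2 ?_
          have := mul_le_mul_of_nonneg_right hψm2 hJ0
          linarith)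
      have m0 := n0.sub (fun _ h => h) hone (Real.exp_pos _).le hex
      have m1 := n1.sub (fun _ h => h) hone (Real.exp_pos _).le hex
      have m2 := n2.sub (fun _ h => h) hone (Real.exp_pos _).le hex
      have q1 : ⌊A 1 * (J : ℝ)⌋₊ = a₂' := by rw [hA1, ha₂']
      have q1' : ⌊W 1 * (J : ℝ)⌋₊ = a₂' := by rw [hW1, ha₂']
      have q2 : ⌊A 2 * (J : ℝ)⌋₊ = a₃' := by rw [hA2, ha₃']
      have q2' : ⌊W 2 * (J : ℝ)⌋₊ = a₃' := by rw [hW2, ha₃']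
      have g0 : (fun l => ⌊(β l a w₂ - d 0 l) * (J : ℝ)⌋₊) = g 0 := by
        rw [hg]
        simp only [hA0, hW0]
      have g1 : (fun l => ⌊(β l (A 1) (W 1) - d 1 l) * (J : ℝ)⌋₊) = g 1 := by rw [hg]
      have g2 : (fun l => ⌊(β l (A 2) (W 2) - d 2 l) * (J : ℝ)⌋₊) = g 2 := by rw [hg]
      rw [← ha₁, ← hw₂', g0] at m0 hnv
      rw [q1, q1', g1] at m1
      rw [q2, q2', g2] at m2
      rw [he₁]
      have hηs : ⌊η * (J : ℝ)⌋₊ ≤ ⌊s / 8 * (J : ℝ)⌋₊ := hfl _ _ hη1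
      have r0 := m0.rlY.mono (D' := max C Dr₁) le_rfl hηs le_rfl
      have r1 := (m1.rlY.mono (D' := max C Dr₁) le_rfl hηs le_rfl).relvF
      exact ⟨T, T₂, T₃, TH, T₂H, T₃H, m0.lst.mono hr (fun _ => le_rfl) le_rfl le_rfl,
        (relvH_of r0).low (by omega) hc m0.lst.depG, hnv,
        m1.lst.mono hr (fun _ => le_rfl) le_rfl le_rfl,
        relvF_low r1 (by omega) hc m1.lst.depG,
        m2.lst.mono (by omega) (fun _ => le_rfl) le_rfl le_rfl⟩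
    · have h3 := hJ₂ J hj2
      have h4 : (0 : ℝ) < 2 ^ C * (N + 1) := by positivity
      calc Real.exp (-(ψm * J)) * 2 ^ C * (N + 1) = Real.exp (-(ψm * J)) * (2 ^ C * (N + 1)) := by
            ring
        _ ≤ 1 / (2 ^ C * (N + 1)) * (2 ^ C * (N + 1)) := mul_le_mul_of_nonneg_right h3 h4.le
        _ = 1 := by field_simp
    · have h3 := mul_le_mul_of_nonneg_right hθ1 hJ0
      have h4 : ((J : ℝ) - a₃ * J) * Real.log 2 ≤ ((J : ℝ) - a₃') * Real.log 2 :=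
        mul_le_mul_of_nonneg_right (by linarith only [a3u]) hln.le
      linarith only [h3, h4, haJ]
    · have h3 := mul_le_mul_of_nonneg_right hθ2 hJ0
      linarith only [h3, s2d, hsJ, hC₁, hCr, CsJ, hMr]
    · have h3 : ((⌊s / 8 * (J : ℝ)⌋₊ : ℕ) : ℝ) ≤ s / 8 * J := hfu _ (by positivity)
      have h4 : ((⌊s / 8 * (J : ℝ)⌋₊ : ℕ) : ℝ) ≤ s₂ := by linarith
      exact_mod_cast h4
    · have h4 : (C : ℝ) * (s₂ + 1) ≤ s₁ := by
        linarith only [Cs2, s1d, hsJ, hC₁, hCr, CsJ, sJ1, hMr]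
      exact_mod_cast h4
    · have h4 : (C : ℝ) * (s₁ + 1) ≤ y' := by
        linarith only [Cs1, hKsyJ, yd, hsJ, hC₁, hCr, CsJ, sJ1, hMr]
      exact_mod_cast h4
    · have h3 : ⌊(β 1 a w₂ + Lo₁) * (J : ℝ)⌋₊ ≤ ⌊(β 1 a w₂ + s) * (J : ℝ)⌋₊ :=
        hfl _ _ (by linarith)
      have h4 := hfu (β 1 a w₂ + s) (by linarith)
      have h5 := gd0 1 (by norm_num)
      have h6 : ((⌊(β 1 a w₂ + Lo₁) * (J : ℝ)⌋₊ : ℕ) : ℝ) ≤ ((⌊(β 1 a w₂ + s) * (J : ℝ)⌋₊ : ℕ) : ℝ)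
        := by exact_mod_cast h3
      have h7 : ((⌊(β 1 a w₂ + Lo₁) * (J : ℝ)⌋₊ : ℕ) : ℝ) ≤ g 0 1 + s₂ := by linarith
      exact_mod_cast h7
    · intro l hl
      have h3 := gNu l (by omega)
      have h4 := gd0 l hl
      have h5 := mJ (hb1 l hl)
      have h6 : (gN l : ℝ) ≤ g 0 l + s₁ := by linarith
      exact_mod_cast h6
    · intro l hl
      have h3 := gNd l (by omega)
      have h4 := gu0 l hl
      have h5 := mJ (hb2 l hl)
      have h6 : (M : ℝ) * (y * J) ≤ M * (y' + 1) := mul_le_mul_of_nonneg_left yd hMr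
      have h7 : (g 0 l : ℝ) ≤ gN l + ((M + 1 : ℕ) : ℝ) * y' := by
        push_cast
        linarith
      exact_mod_cast h7
    · intro j _
      split_ifs
      · exact hfJ _ (by linarith)
      · exact hfJ _ (by linarith)
    · intro l hl
      have h3 := gNu l hl
      have h5 := mJ (hr1 l hl)
      have h6 : (2 * (e₁ : ℝ) + E₁ + gN l + C * y') ≤ J := by linarith
      exact_mod_cast h6
    · intro l hl
      have h3 := gu0 l hl
      have h5 := mJ (hr2 l hl)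
      have h6 : (2 * (e₁ : ℝ) + E₁ + g 0 l + C * y') ≤ J := by linarith
      exact_mod_cast h6
    · intro l hl
      have h3 := gu1 l hl
      have h5 := mJ (hr3 l hl)
      have h6 : ((e₁ : ℝ) + g 1 l + C * y') ≤ J := by linarith
      exact_mod_cast h6
    · intro l hl
      have h3 := gu2 l (by omega)
      have h5 := mJ (hr4 l hl)
      have h6 : ((e₁ : ℝ) + g 2 l + C * y') ≤ J := by linarith
      exact_mod_cast h6
    · have h3 := gNd 3 (by norm_num)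
      have h4 := mJ (hβN 3 (by norm_num))
      have h5 := mJ hKa
      have h6 : ((C : ℝ) * y') ≤ gN 3 := by linarith
      exact_mod_cast h6
    · intro l hl
      have h3 := gNu l (by omega)
      have h5 := mJ (hr1 l (by omega))
      have h10 : 0 ≤ e' * J := mul_nonneg he' hJ0
      have h11 : 0 ≤ (E + ϱ) * J := mul_nonneg (by linarith) hJ0
      have h6 : (gN l : ℝ) ≤ J := by linarith
      exact_mod_cast h6
    · -- the number of classes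
      have h3 := gNu 3 (by norm_num)
      have h4 := gu0 1 (by norm_num)
      have h5 := mJ (hr1 3 (by norm_num))
      have h6 := mJ (hr2 1 (by norm_num))
      have h7 := mul_le_mul_of_nonneg_right hN1 hJ0
      have h8 : (N : ℝ) * (s * J) ≤ N * s₁ :=
        mul_le_mul_of_nonneg_left (by linarith) hNr
      have h9 : a * J ≤ 1 * J := mJ (by linarith)
      have h10 : 0 ≤ e' * J := mul_nonneg he' hJ0
      have h11 : 0 ≤ (E + ϱ) * J := mul_nonneg (by linarith) hJ0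
      have h12 : 0 ≤ β 1 a w₂ * J := mul_nonneg hβa hJ0
      have h13 : 0 ≤ β 3 a w * J := mul_nonneg (by linarith [hβN 3 (by norm_num)]) hJ0
      have h16 : y * J ≤ 1 * J := mJ (by linarith)
      have h17 : (y' : ℝ) + a₁ + e₁ + E₁ + g 0 1 + J + gN 3 + 1 ≤ 7 * J := by linarith
      have h18 := mul_le_mul_of_nonneg_left h17 hCr
      have h15 : (C : ℝ) * (y' + a₁ + e₁ + E₁ + g 0 1 + J + gN 3 + 1) ≤ N * s₁ := by
        linarith only [h18, h7, h8, hJ0]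
      exact_mod_cast h15
    · have h3 := gNu 2 (by norm_num)
      have h5 := mJ hl1
      have h6 : (gN 2 : ℝ) + a₁ + C * y' ≤ Q := by
        rw [Qd]
        linarith
      exact_mod_cast h6
    · have h3 := gu0 1 (by norm_num)
      have h4 := gd2 1 (by norm_num)
      have h5 := mJ hl3
      have h6 : (g 0 1 : ℝ) + a₃' + C * y' ≤ g 2 1 + a₁ := by linarith
      exact_mod_cast h6
    · have h3 := gu1 1 (by norm_num)
      have h4 := gd2 1 (by norm_num)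
      have h5 := mJ hl4
      have h6 : (g 1 1 : ℝ) + a₃' + C * y' ≤ g 2 1 + a₁ := by linarith
      exact_mod_cast h6
    · have h3 := gu0 2 (by norm_num)
      have h4 := gd1 2 (by norm_num)
      have h5 := mJ hl5
      have h6 : (g 0 2 : ℝ) + a₂' + C * y' ≤ g 1 2 + a₁ := by linarith
      exact_mod_cast h6

end Pool.NVX
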