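import Pool.Agent.H39.NV.BadB
import Pool.Agent.H39.NV.Sigw
import Pool.Agent.H82.NVT.Var

/-!
# The bad event for `c 2; c 3`, `c 1` and `c 2` thin: the first part

`pre_t`: on a large part of a bad event there are the own nodes, the derivative of the label of `c 3`
in the direction of `c 2` has a two-sided size, and the slope of the label of `c 2` in the direction
of `c 1` is visible and closed.
-/

set_option autoImplicit false

namespace Pool.NVX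

open Finset Real MvPolynomial
open Pool.Agent.H49.Ent Pool.Agent.H32.Dense Pool.STK Pool.KA Pool.KSAT Pool.K2S Pool.PB Pool.S6C
open Pool.GEN Pool.CHT
open Pool.SHR (dir dir_eq mvp RelvH Shr ShrY NVG shrY_iff relvF_low)
open Pool.PB.Trl (rt rt_mem t_rt)
open Pool.FLF (Fam.sub)
open Pool.ISO (cwn cwn_slam chOK_win)
open Pool.D2R (dd hs)

variable {m J : ℕ}

/-- **The first part**, for `c 2; c 3`, `c 1` and `c 2` thin. -/
theorem pre_t (m D : ℕ) : ∃ (C : ℕ) (C₁ : ℝ), 1 ≤ C₁ ∧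
    ∀ {J : ℕ} {F : Fam m J} {c : ℕ → Fin m} {a w w₂ a₂ a₃ e E h s s' S Q N D₂ Y₁ y₁ V₁ Ca : ℕ}
    {gN g g₂ g₃ Y : ℕ → ℕ} {κ θ : ℝ} {A : F.Ω → Prop}
    {G : PtT F → ℕ → MvPolynomial (Option (Fin m)) ℝ}
    {H : LnT F → ℕ → MvPolynomial (Option (Fin m)) ℝ}, 0 < Pe F.p A →
    Set.InjOn c (Set.Iio 4) → w ≤ w₂ → w₂ ≤ a → a ≤ a₃ → a₃ + 1 ≤ J →
    ChOK F c 4 (fun _ => D) a w E gN A G H →
    (∀ ω, A ω → 2 ^ Q / 2 ^ gN 3 <
      wmx w (slam F w ω).2.2 (hcl (c 2) (H (slam F w ω) 3) (slam F w ω))) →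
    (∀ (B' : F.Ω → Prop) (hB' : 0 < Pe F.p B'), Sub B' A → Pe F.p A ≤ 2 * Pe F.p B' →
      (Fam.sub F B' hB').Tm θ) →
    (∀ A' : F.Ω → Prop, Sub A' A → Pe F.p A ≤ 4 * (N + 1) * Pe F.p A' →
      ∃ B : F.Ω → Prop, Sub B A' ∧ 0 < Pe F.p B ∧
      (∀ (B' : F.Ω → Prop) (hB' : 0 < Pe F.p B'), Sub B' B →
        Pe F.p B ≤ 2 ^ Ca * (N + 1) * Pe F.p B' → (Fam.sub F B' hB').Tm θ) ∧
      ∃ (T T₂ T₃ : PtT F → ℕ → MvPolynomial (Option (Fin m)) ℝ)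
        (TH T₂H T₃H : LnT F → ℕ → MvPolynomial (Option (Fin m)) ℝ),
        ChOK F c 3 (fun _ => D) a w₂ e g B T TH ∧ RelvH F c 3 a w₂ g Y D₂ h κ B T ∧
        NVG F c 1 2 a w₂ a g Y₁ y₁ V₁ κ B T TH ∧
        ChOK F c 3 (fun _ => D) a₂ a₂ e g₂ B T₂ T₂H ∧ RelvF F c 3 a₂ a₂ g₂ D₂ h κ B T₂ ∧
        ChOK F c 2 (fun _ => D) a₃ a₃ e g₃ B T₃ T₃H) →
    C ≤ Ca → D ≤ D₂ → 0 ≤ κ → κ * 2 ^ Ca * (N + 1) ≤ 1 → 0 ≤ θ →
    C₁ * (θ + 1) ≤ ((J : ℝ) - a₃) * Real.log 2 →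
    C₁ * (θ + 1) ≤ s' → h ≤ s' → C * (s' + 1) ≤ s → V₁ ≤ g 1 + s' →
    (∀ j < 3, Y j ≤ J) → (∀ l < 3, e + g l + C * (s + 1) ≤ J) → (∀ l < 3, gN l ≤ S) →
    C * (s + 1) + a + E + S + gN 3 ≤ N * s →
    ∃ (B₀ B : F.Ω → Prop) (T T₂ T₃ : PtT F → ℕ → MvPolynomial (Option (Fin m)) ℝ)
      (TH T₂H T₃H : LnT F → ℕ → MvPolynomial (Option (Fin m)) ℝ) (v : PtT F → Fin m → ℝ)
      (v' : LnT F → Fin m → ℝ) (k : ℕ), Sub B₀ A ∧ Sub B B₀ ∧ 0 < Pe F.p B ∧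
      Pe F.p B₀ ≤ 2 ^ C * Pe F.p B ∧
      (∀ (B' : F.Ω → Prop) (hB' : 0 < Pe F.p B'), Sub B' B₀ →
        Pe F.p B₀ ≤ 2 ^ Ca * (N + 1) * Pe F.p B' → (Fam.sub F B' hB').Tm θ) ∧
      ChOK F c 3 (fun _ => D) a w₂ e g B₀ T TH ∧ RelvH F c 3 a w₂ g Y D₂ h κ B₀ T ∧
      ChOK F c 3 (fun _ => D) a₂ a₂ e g₂ B₀ T₂ T₂H ∧ RelvF F c 3 a₂ a₂ g₂ D₂ h κ B₀ T₂ ∧
      ChOK F c 2 (fun _ => D) a₃ a₃ e g₃ B₀ T₃ T₃H ∧ 0 < k ∧ k ≤ N ∧
      (∀ ω, B ω → v (ptr F J ω) = v' (slam F a ω)) ∧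
      (∀ x, v x (c 1) = 1 ∧ v x (c 0) = 0 ∧ ∀ k, k ≠ c 1 → k ≠ c 2 → v x k = 0) ∧
      (∀ ω, B ω → ShrY F c a (g 1) g T v s 2 ω) ∧
      (∀ ω, B ω → ∀ b, NBx c (T (ptr F J ω)) g a (F.t ω) 2 b →
        |eval b (pderiv (some (c 1)) (TH (slam F w₂ ω) 2)) - v (ptr F J ω) (c 2)| ≤
          2 ^ (s + g 1) / 2 ^ g 2) ∧
      (∀ ω, B ω → ∀ t : ℝ, |t - F.t ω| ≤ 1 / 2 ^ a →
        |eval (bt F ω + (t - F.t ω) • bd F ω) (pderiv (some (c 1)) (TH (slam F w₂ ω) 2)) -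
          v (ptr F J ω) (c 2)| ≤ 2 ^ (s + g 1) / 2 ^ g 2) ∧
      (∀ ω, B ω → wmx w (slam F w ω).2.2 (hcl (c 2) (H (slam F w ω) 3) (slam F w ω)) ≤
        2 ^ (Q + k * s) / 2 ^ gN 3) ∧
      (∀ ω, B ω → 2 ^ (Q + k * s) / 2 ^ gN 3 / 2 ^ s ≤
        wmx w (slam F w ω).2.2 (hcl (c 2) (H (slam F w ω) 3) (slam F w ω))) := by
  classical
  obtain ⟨Cc, Cc₁, hCc₁, hcrd⟩ := crd m D
  obtain ⟨Cw, Cw₁, hCw₁, hvwin⟩ := var_win m D
  obtain ⟨Cv, hval⟩ := val_up D 4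
  obtain ⟨Cs, hsig⟩ := sig_exw D
  have pw : ∀ {x y : ℕ}, x ≤ y → (2 : ℝ) ^ x ≤ 2 ^ y := fun h => pow_le_pow_right₀ (by norm_num) h
  obtain ⟨C, hC⟩ : ∃ C, C = Cc + Cv + Cs * (Cw + 4) + 12 := ⟨_, rfl⟩
  refine ⟨C, Cc₁ + Cw₁, by linarith, ?_⟩
  intro J F c a w w₂ a₂ a₃ e E h s s' S Q N D₂ Y₁ y₁ V₁ Ca gN g g₂ g₃ Y κ θ A G H hA hc hw hw2a
    haa3 ha3J hL hbad hTm hown hCa hDD hκ0 hκ1 hθ hθJ hθs hhs hss hV₁ hYJ hrg hS hN
  have hc3 : Set.InjOn c (Set.Iio 3) := hc.mono (Set.Iio_subset_Iio (by norm_num))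
  have haJ : a ≤ J := by omega
  have hwJ : w ≤ J := by omega
  have hln : 0 < Real.log 2 := Real.log_pos (by norm_num)
  have hθ1 : 0 < θ + 1 := by linarith
  have hm1 : Cc₁ * (θ + 1) ≤ (Cc₁ + Cw₁) * (θ + 1) :=
    mul_le_mul_of_nonneg_right (by linarith) hθ1.le
  have hm2 : Cw₁ * (θ + 1) ≤ (Cc₁ + Cw₁) * (θ + 1) :=
    mul_le_mul_of_nonneg_right (by linarith) hθ1.le
  have hJw : ((J : ℝ) - a₃) * Real.log 2 ≤ ((J : ℝ) - w) * Real.log 2 := by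
    refine mul_le_mul_of_nonneg_right ?_ hln.le
    have : (w : ℝ) ≤ a₃ := by exact_mod_cast (by omega : w ≤ a₃)
    linarith
  have hJa : ((J : ℝ) - a₃) * Real.log 2 ≤ ((J : ℝ) - a) * Real.log 2 := by
    refine mul_le_mul_of_nonneg_right ?_ hln.le
    have : (a : ℝ) ≤ a₃ := by exact_mod_cast haa3
    linarith
  have hCs5 : C * (s' + 1) = Cc * (s' + 1) + Cv * (s' + 1) + Cs * (Cw + 4) * (s' + 1) +
      12 * (s' + 1) := by rw [hC]; ring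
  have hs's : s' ≤ s := by omega
  have hs'sr : (s' : ℝ) ≤ s := by exact_mod_cast hs's
  have hCs1 : C * (s + 1) = Cc * (s + 1) + Cv * (s + 1) + Cs * (Cw + 4) * (s + 1) +
      12 * (s + 1) := by rw [hC]; ring
  have mCv : Cv ≤ Cv * (s + 1) := Nat.le_mul_of_pos_right _ (by omega)
  have mCc : Cc ≤ Cc * (s + 1) := Nat.le_mul_of_pos_right _ (by omega)
  have hN1 : (1 : ℝ) ≤ N + 1 := by
    have : (0 : ℝ) ≤ N := Nat.cast_nonneg N
    linarith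
  -- the derivative in the direction `c 2`: the crude bound
  have hval2 : ∀ ω, A ω → |eval (bt F ω) (pderiv (some (c 2)) (H (slam F w ω) 3))| ≤
      2 ^ (Cv + E + 0 + S) := by
    intro ω hω
    have h0 : ∀ j < 2, ek (c 2) (c j) = 0 := fun j hj => by
      refine ek_ne fun he => ?_
      have := hc3 (show j < 3 by omega) (show 2 < 3 by norm_num) he
      omega
    have h1 := hval (v := ek (c 2)) (X := 0) (l := 2) (i := 3) (by norm_num) (by norm_num) hc3 hL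
      hω hS (ek_self _) h0 (fun j hj hlj => by omega)
    rwa [dir_two3 hc3 (hL.depH _ 3) (ek_self _) h0] at h1
  obtain ⟨A₁, k1, k2, k3⟩ := hcrd (w := w) (s := s) (A := A) (M := 2 ^ (Cv + E + 0 + S)) (θ := θ)
    (fun s' => gcl (c 2) (H s' 3) s') hA hwJ (fun s' => gcl_deg _ (hL.degH _ _) _) hTm hθ
    ((hm1.trans hθJ).trans hJw) ((hm1.trans hθs).trans hs'sr) (by positivity) (fun ω hω => by
      rw [gcl_self]
      exact hval2 ω hω)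
  -- the classes of the derivative in the direction `c 2`
  have hA₁ : 0 < Pe F.p A₁ := by linarith
  obtain ⟨k, hk, A₂, k4, k5, k6, k7⟩ := dyc F.isLaw (A := A₁) (Q := Q) (s := s) (N := N)
    (G := gN 3) (f := fun ω => wmx w (slam F w ω).2.2 (hcl (c 2) (H (slam F w ω) 3)
      (slam F w ω))) (fun ω hω => by
      refine (k3 ω hω).trans ?_
      rw [le_div_iff₀ (by positivity), ← pow_add, ← pow_add]
      exact pw (by
        have e1 : C * s + C = C * (s + 1) := by ring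
        omega))
  have hPA₁ : Pe F.p A ≤ 4 * Pe F.p A₁ := by linarith
  obtain ⟨B₀, b1, b2, b3, T, T₂, T₃, TH, T₂H, T₃H, hT, hRH, hNV, hT2, hR2, hT3⟩ := hown A₂
    (fun ω hω => k1 ω (k4 ω hω)) (by
      calc Pe F.p A ≤ 4 * Pe F.p A₁ := hPA₁
        _ ≤ 4 * ((N + 1) * Pe F.p A₂) := mul_le_mul_of_nonneg_left k5 (by norm_num)
        _ = _ := by ring)
  have hB₀A : Sub B₀ A := fun ω hω => k1 ω (k4 ω (b1 ω hω))
  have hkpos : 0 < k := by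
    by_contra hcon
    have hk0 : k = 0 := by omega
    subst hk0
    obtain ⟨ω, hω⟩ : ∃ ω, B₀ ω := by
      by_contra hcon'
      push Not at hcon'
      have h1 : Pe F.p B₀ = 0 := by
        unfold Pe
        exact Finset.sum_eq_zero fun ω _ => by simp [hcon' ω]
      linarith
    have h1 := hbad ω (hB₀A ω hω)
    have h3 := k6 ω (b1 ω hω)
    rw [Nat.zero_mul, Nat.add_zero] at h3
    linarith
  -- the shares
  have hκB : κ * 2 ^ Ca * Pe F.p B₀ ≤ Pe F.p B₀ := by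
    have h3 : κ * 2 ^ Ca ≤ 1 := by
      refine le_trans ?_ hκ1
      exact le_mul_of_one_le_right (by positivity) hN1
    nlinarith [b2]
  -- the variation of the label of `c 2` over the short windows
  obtain ⟨B₁, c1, c2, c3⟩ := hNV B₀ (fun _ h => h) (by
    have h3 : κ ≤ κ * 2 ^ Ca := le_mul_of_one_le_right hκ0 (one_le_pow₀ (by norm_num))
    exact (mul_le_mul_of_nonneg_right h3 b2.le).trans hκB) (fun _ => ek (c 1)) (fun _ => ek (c 1))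
    (fun _ _ => rfl) (fun ω _ => ⟨ek_self _, fun j hj => by
      refine ek_ne fun he => ?_
      have := hc3 (show j < 3 by omega) (show 1 < 3 by norm_num) he
      omega⟩) (fun ω _ j hj hlj => by omega)
  have c2' : 0 < Pe F.p B₁ := by linarith
  have e2C : (2 : ℝ) ^ Ca * (N + 1) ≥ 2 ^ Ca := le_mul_of_one_le_right (by positivity) hN1
  have e2Cp : ∀ j : ℕ, j ≤ C → (2 : ℝ) ^ j ≤ 2 ^ Ca * (N + 1) := fun j hj =>
    (pw (hj.trans hCa)).trans e2C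
  obtain ⟨B₂, d1, d2, d3⟩ := hvwin (F := F) (w := w₂) (a := a) (s := s') (A := B₁)
    (V := 2 ^ V₁ / 2 ^ g 2) (θ := θ) (fun s' => gcl (c 1) (TH s' 2) s') c2' hw2a haJ
    (fun s' => gcl_deg _ (hT.degH _ _) _) (fun B' hB' h1 h2 => b3 B' hB' (fun ω h => c1 ω (h1 ω h))
      (by
        calc Pe F.p B₀ ≤ 2 * Pe F.p B₁ := by linarith
          _ ≤ 2 * (2 * Pe F.p B') := mul_le_mul_of_nonneg_left h2 (by norm_num)
          _ = 2 ^ 2 * Pe F.p B' := by ring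
          _ ≤ _ := mul_le_mul_of_nonneg_right (e2Cp 2 (by omega)) hB'.le)) hθ
    ((hm2.trans hθJ).trans hJa) (hm2.trans hθs) (by positivity) (fun ω ω' hω hω' hsl => by
      have h3 := c3 ω ω' hω hω' hsl
      rw [dir_ek] at h3
      have e1 : slam F w₂ ω' = slam F w₂ ω := by
        rw [← slam_coarse' F hw2a haJ ω, ← slam_coarse' F hw2a haJ ω', hsl]
      rw [gcl_self]
      have e3 := gcl_self F w₂ ω' (c 1) (TH (slam F w₂ ω) 2)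
      rw [e1] at e3
      rw [e3]
      exact h3)
  have d2' : 0 < Pe F.p B₂ := by linarith
  have hB₂ : Sub B₂ B₀ := fun ω hω => c1 ω (d1 ω hω)
  have hκ2 : κ * Pe F.p B₀ ≤ Pe F.p B₂ := by
    have h3 : κ * 2 ^ 3 ≤ κ * 2 ^ Ca := mul_le_mul_of_nonneg_left (pw (by omega)) hκ0
    have h4 := (mul_le_mul_of_nonneg_right h3 b2.le).trans hκB
    linarith
  -- the slope of the label of `c 2`
  have hCsig : Cs * (h + (Cw + 2 * s') + 1) ≤ Cs * (Cw + 4) * (s' + 1) := by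
    rw [mul_assoc]
    refine Nat.mul_le_mul_left _ ?_
    have : (Cw + 4) * (s' + 1) = Cw * s' + Cw + 4 * s' + 4 := by ring
    omega
  have hCsig2 : Cs * (Cw + 4) * (s' + 1) ≤ Cs * (Cw + 4) * (s + 1) :=
    Nat.mul_le_mul_left _ (by omega)
  obtain ⟨B₃, v, v', f1, f2, f3, f4, f5⟩ := hsig (F := F) (c := c) (a := a) (w := w₂) (e := e)
    (h := h) (y := Cw + 2 * s') (g := g) (Y := Y) (κ := κ) (B₀ := B₀) (B := B₂) (T := T)
    (TH := TH) hc3 hw2a haJ hB₂ hκ0 hκ2 (hT.sub hB₂) (fun B' g1 g2 Dx Dl M y g3 g4 => hRH B' g1 g2 Dx Dl M y (fun z => (g3 z).trans hDD)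
      (fun z => (g4 z).trans hDD)) hYJ (fun l hl => by
      have h3 := hrg l hl
      omega) (fun ω hω t ht => by
      have h3 := d3 ω hω t (ht.trans (div_le_div_of_nonneg_right (by norm_num) (by positivity)))
      rw [gcl_eval, gcl_self] at h3
      refine h3.trans ?_
      rw [← mul_div_assoc, ← pow_add]
      exact div_le_div_of_nonneg_right (pw (by omega)) (by positivity))
  have hB₃ : Sub B₃ B₀ := fun ω hω => hB₂ ω (f1 ω hω)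
  have f2' : 0 < Pe F.p B₃ := by linarith
  have hnum : Cs * (h + (Cw + 2 * s') + 1) + g 1 ≤ s + g 1 := by omega
  refine ⟨B₀, B₃, T, T₂, T₃, TH, T₂H, T₃H, v, v', k, hB₀A, hB₃, f2', ?_, b3, hT, hRH, hT2, hR2,
    hT3, hkpos, hk, f3, f4, fun ω hω => ?_, fun ω hω b hb => ?_, fun ω hω t ht => ?_,
    fun ω hω => k6 ω (b1 ω (hB₃ ω hω)), fun ω hω => k7 hkpos ω (b1 ω (hB₃ ω hω))⟩
  · calc Pe F.p B₀ ≤ 2 ^ 5 * Pe F.p B₃ := by linarith
      _ ≤ 2 ^ C * Pe F.p B₃ := mul_le_mul_of_nonneg_right (pw (by omega)) f2'.le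
  · have h3 := shrY_iff.2 (f5 ω hω).1
    exact h3.mono le_rfl (by omega)
  · exact ((f5 ω hω).2.1 b hb).2.trans (div_le_div_of_nonneg_right (pw hnum) (by positivity))
  · exact ((f5 ω hω).2.2 t ht).trans (div_le_div_of_nonneg_right (pw hnum) (by positivity))

end Pool.NVX
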