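import Pool.Agent.H82.NVT.Lit
import Pool.Agent.H82.NVT.Pre
import Pool.Agent.H82.NVT.ClsT

/-!
# There is no bad event, for `c 2; c 3`, `c 1` and `c 2` thin

`nb_t`: from the family theorem.
-/

set_option autoImplicit false

namespace Pool.NVX

open Finset Real MvPolynomial
open Pool.Agent.H49.Ent Pool.Agent.H32.Dense Pool.STK Pool.KA Pool.KSAT Pool.K2S Pool.PB Pool.S6C
open Pool.GEN Pool.CHT
open Pool.SHR (dir dir_eq mvp RelvH Shr ShrY NVG shrY_iff relvF_low)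
open Pool.PB.Trl (rt rt_mem t_rt)
open Pool.FLF (Fam.sub)

variable {m J : ℕ}

/-- The direction `c 1` plus `q` times the direction `c 2`, from its parts. -/
theorem hcv_parts {F : Fam m J} {w : ℕ} {ω : F.Ω} {k u : Fin m}
    {Pu P : MvPolynomial (Option (Fin m)) ℝ} {A B C : ℝ} (hA : 0 ≤ A)
    (h1 : wmx w (slam F w ω).2.2 (hcl k P (slam F w ω)) ≤ B)
    (h2 : wmx w (slam F w ω).2.2 (gcl k Pu (slam F w ω)) ≤ A)
    (h3 : wmx w (slam F w ω).2.2 (hcl u P (slam F w ω)) ≤ C) :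
    wmx w (slam F w ω).2.2 (hcv k u Pu P (slam F w ω)) ≤ B + A * C := by
  obtain ⟨t, ht, h4⟩ := wmx_mem w (slam F w ω).2.2 (hcv k u Pu P (slam F w ω))
  rw [h4, hcv_eval]
  have h5 := (le_wmx ht).trans h1
  have h6 := (le_wmx ht).trans h2
  have h7 := (le_wmx ht).trans h3
  rw [gcl_eval] at h6
  refine (abs_add_le _ _).trans (add_le_add h5 ?_)
  rw [abs_mul]
  exact mul_le_mul h6 h7 (abs_nonneg _) hA

/-- **There is no bad event**, from the family theorem. -/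
theorem nb_t {m D M : ℕ} (h2 : NvT3 m D M) : NbT m D M := by
  obtain ⟨Cb, Cb₁, hCb₁, hnv⟩ := h2
  obtain ⟨Cp, Cp₁, hCp₁, hpre⟩ := pre_t m D
  obtain ⟨Cc, Cc₁, hCc₁, hcrd⟩ := crd m D
  obtain ⟨Cr₁, hCr₁, hcrv⟩ := crv m D
  obtain ⟨Cv, hval⟩ := val_up D 4
  have pw : ∀ {x y : ℕ}, x ≤ y → (2 : ℝ) ^ x ≤ 2 ^ y := fun h => pow_le_pow_right₀ (by norm_num) h
  obtain ⟨C, hC⟩ : ∃ C, C = Cb + Cp + Cc + Cv + D + 20 := ⟨_, rfl⟩
  refine ⟨C, Cb₁ + Cp₁ + Cc₁ + Cr₁, by linarith, ?_⟩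
  intro J F c a w w₂ a₂ a₃ e E h s s' y S Q N D₂ Y₁ y₁ V₁ gN g g₂ g₃ Y κ θ A G H hA hc hwy hw2a
    haa2 ha23 ha3J hL hbad hTm hown hCD hκ0 hκ1 hθ hθJ hθs hhs hss hsy hV₁ hgx hgM hYJ hrN hrg hr2
    hr3 hgN3 hS hN n1 n3 n4 n5
  have hc3 : Set.InjOn c (Set.Iio 3) := hc.mono (Set.Iio_subset_Iio (by norm_num))
  have hc2 : Set.InjOn c (Set.Iio 2) := hc.mono (Set.Iio_subset_Iio (by norm_num))
  have haJ : a ≤ J := by omega
  have hwJ : w ≤ J := by omega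
  have hwa : w ≤ a := by omega
  have hln : 0 < Real.log 2 := Real.log_pos (by norm_num)
  have hθ1 : 0 < θ + 1 := by linarith
  have hm0 : ∀ x : ℝ, x ≤ Cb₁ + Cp₁ + Cc₁ + Cr₁ → x * (θ + 1) ≤
      (Cb₁ + Cp₁ + Cc₁ + Cr₁) * (θ + 1) := fun x hx => mul_le_mul_of_nonneg_right hx hθ1.le
  have hmb := hm0 Cb₁ (by linarith)
  have hmp := hm0 Cp₁ (by linarith)
  have hmc := hm0 Cc₁ (by linarith)
  have hmr := hm0 Cr₁ (by linarith)
  have hJw : ((J : ℝ) - a₃) * Real.log 2 ≤ ((J : ℝ) - w) * Real.log 2 := by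
    refine mul_le_mul_of_nonneg_right ?_ hln.le
    have : (w : ℝ) ≤ a₃ := by exact_mod_cast (by omega : w ≤ a₃)
    linarith
  have hCs1 : C * (s + 1) = Cb * (s + 1) + Cp * (s + 1) + Cc * (s + 1) + Cv * (s + 1) +
      D * (s + 1) + 20 * (s + 1) := by rw [hC]; ring
  have hCs5 : C * (s' + 1) = Cb * (s' + 1) + Cp * (s' + 1) + Cc * (s' + 1) + Cv * (s' + 1) +
      D * (s' + 1) + 20 * (s' + 1) := by rw [hC]; ring
  have hCy : C * y = Cb * y + Cp * y + Cc * y + Cv * y + D * y + 20 * y := by rw [hC]; ring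
  have hs's : s' ≤ s := by omega
  have hs'sr : (s' : ℝ) ≤ s := by exact_mod_cast hs's
  have hsy' : s + 1 ≤ y := by omega
  have hy1 : 1 ≤ y := by omega
  have mCv : Cv ≤ Cv * y := Nat.le_mul_of_pos_right _ (by omega)
  have mCc : Cc ≤ Cc * y := Nat.le_mul_of_pos_right _ (by omega)
  have hCpy : Cp * (s + 1) ≤ Cp * y := Nat.mul_le_mul_left _ hsy'
  have hN1 : (1 : ℝ) ≤ N + 1 := by
    have : (0 : ℝ) ≤ N := Nat.cast_nonneg N
    linarith
  have hCN : (0 : ℝ) < N + 1 := by linarith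
  -- the large number of classes
  have hNs : C * (y + a + e + E + g 1 + S + gN 3 + 1) = C * y + C * (a + e + E + g 1 + S + gN 3 + 1)
    := by ring
  have hNs2 : 20 * (a + e + E + g 1 + S + gN 3 + 1) ≤ C * (a + e + E + g 1 + S + gN 3 + 1) :=
    Nat.mul_le_mul_right _ (by omega)
  -- the first part
  obtain ⟨B₀, B₃, T, T₂, T₃, TH, T₂H, T₃H, v, v', k, hB₀A, hB₃, hPB₃, hsh, b3, hT, hRH, hT2, hR2,
    hT3, hk0, hkN, hv, hv01, hshr, hdb, hdt, hup, hlo⟩ := hpre (J := J) (F := F) (c := c) (a := a)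
      (w := w) (w₂ := w₂) (a₂ := a₂) (a₃ := a₃) (e := e) (E := E) (h := h) (s := s) (s' := s')
      (S := S) (Q := Q) (N := N) (D₂ := D₂) (Y₁ := Y₁) (y₁ := y₁) (V₁ := V₁) (Ca := C) (gN := gN)
      (g := g) (g₂ := g₂) (g₃ := g₃) (Y := Y) (κ := κ) (θ := θ) (A := A) (G := G) (H := H) hA hc
      (by omega) hw2a (by omega) ha3J hL hbad hTm hown (by omega) (by omega) hκ0 hκ1 hθ
      (hmp.trans hθJ) (hmp.trans hθs) hhs (by
        have : Cp * (s' + 1) ≤ C * (s' + 1) := Nat.mul_le_mul_right _ (by omega)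
        omega) hV₁ hYJ (fun l hl => by
        have := hrg l hl
        omega) hS (by omega)
  have hB₃A : Sub B₃ A := fun ω hω => hB₀A ω (hB₃ ω hω)
  have hPB₀ : 0 ≤ Pe F.p B₀ := Pe_nonneg F.isLaw _
  -- the parts of the family
  have hTmP : ∀ (j : ℕ) (B' : F.Ω → Prop) (hB' : 0 < Pe F.p B'), Sub B' B₃ → j ≤ 18 →
      Pe F.p B₃ ≤ 2 ^ j * Pe F.p B' → (Fam.sub F B' hB').Tm θ := by
    intro j B' hB' h1 hj h2
    refine b3 B' hB' (fun ω h => hB₃ ω (h1 ω h)) ?_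
    calc Pe F.p B₀ ≤ 2 ^ Cp * Pe F.p B₃ := hsh
      _ ≤ 2 ^ Cp * (2 ^ j * Pe F.p B') := mul_le_mul_of_nonneg_left h2 (by positivity)
      _ = 2 ^ (Cp + j) * 1 * Pe F.p B' := by rw [pow_add]; ring
      _ ≤ 2 ^ C * (N + 1) * Pe F.p B' := by
        refine mul_le_mul_of_nonneg_right ?_ hB'.le
        exact mul_le_mul (pw (by omega)) hN1 (by norm_num) (by positivity)
  -- the crude bounds
  have hval1 : ∀ ω, B₃ ω → |eval (bt F ω) (pderiv (some (c 1)) (H (slam F w ω) 3))| ≤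
      2 ^ (Cv + E + 0 + S) := by
    intro ω hω
    have h0 : ∀ j < 1, ek (c 1) (c j) = 0 := fun j hj => by
      refine ek_ne fun he => ?_
      have := hc3 (show j < 3 by omega) (show 1 < 3 by norm_num) he
      omega
    have h20 : ek (c 1) (c 2) = 0 := ek_ne fun he => by
      have := hc3 (show 2 < 3 by norm_num) (show 1 < 3 by norm_num) he
      omega
    have h1 := hval (v := ek (c 1)) (X := 0) (l := 1) (i := 3) (by norm_num) (by norm_num) hc3 hL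
      (hB₃A ω hω) hS (ek_self _) h0 (fun j hj hlj => by
        have : j = 2 := by omega
        rw [this, h20, abs_zero]
        positivity)
    rwa [dir_one3 hc3 (hL.depH _ 3) (h0 0 (by norm_num)) (ek_self _), h20, zero_mul,
      add_zero] at h1
  have hval2 : ∀ ω, B₃ ω → |eval (bt F ω) (pderiv (some (c 1)) (H (slam F w ω) 2))| ≤
      2 ^ (Cv + E + 0 + S) := by
    intro ω hω
    have h0 : ∀ j < 1, ek (c 1) (c j) = 0 := fun j hj => by
      refine ek_ne fun he => ?_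
      have := hc3 (show j < 3 by omega) (show 1 < 3 by norm_num) he
      omega
    have h1 := hval (v := ek (c 1)) (X := 0) (l := 1) (i := 2) (by norm_num) (by norm_num) hc2
      (hL.mono (show 3 ≤ 4 by norm_num) (fun _ => le_rfl) le_rfl le_rfl) (hB₃A ω hω)
      (fun j hj => hS j (by omega)) (ek_self _) h0 (fun j hj hlj => by omega)
    rwa [dir_twoW hc2 (hL.depH _ 2) (ek_self _) (h0 0 (by norm_num))] at h1
  obtain ⟨B₄, c1, c2, c3⟩ := hcrd (w := w) (s := s) (A := B₃) (M := 2 ^ (Cv + E + 0 + S)) (θ := θ)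
    (fun s' => gcl (c 1) (H s' 3) s') hPB₃ hwJ (fun s' => gcl_deg _ (hL.degH _ _) _)
    (fun B' hB' h1 h2 => hTmP 1 B' hB' h1 (by norm_num) (by rwa [pow_one])) hθ
    ((hmc.trans hθJ).trans hJw) ((hmc.trans hθs).trans hs'sr) (by positivity) (fun ω hω => by
      rw [gcl_self]
      exact hval1 ω hω)
  have hPB₄ : 0 < Pe F.p B₄ := by linarith
  obtain ⟨B₅, d1, d2, d3⟩ := hcrv (w := w) (s := s) (A := B₄) (M := 2 ^ (Cv + E + 0 + S)) (θ := θ)
    (fun s' => gcl (c 1) (H s' 2) s') hPB₄ hwJ (fun s' => gcl_deg _ (hL.degH _ _) _)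
    (fun B' hB' h1 h2 => hTmP 3 B' hB' (fun ω h => c1 ω (h1 ω h)) (by norm_num) (by
      calc Pe F.p B₃ ≤ 4 * Pe F.p B₄ := by linarith
        _ ≤ 4 * (2 * Pe F.p B') := mul_le_mul_of_nonneg_left h2 (by norm_num)
        _ = _ := by ring)) hθ
    ((hmr.trans hθJ).trans hJw) ((hmr.trans hθs).trans hs'sr) (by positivity) (fun ω hω => by
      rw [gcl_self]
      exact hval2 ω (c1 ω hω))
  have hPB₅ : 0 < Pe F.p B₅ := by linarith
  -- the sizes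
  obtain ⟨lam₂, hlam₂⟩ : ∃ lam₂, lam₂ = Q + k * s - a := ⟨_, rfl⟩
  have hks : a + lam₂ = Q + k * s := by omega
  have hlam₂g : gN 2 + C * y ≤ lam₂ := by omega
  obtain ⟨lam₀, hlam₀⟩ : ∃ lam₀, lam₀ = lam₂ + g 1 - gN 2 := ⟨_, rfl⟩
  have hlam₀' : lam₀ + gN 2 = lam₂ + g 1 := by omega
  have hgN2S : gN 2 ≤ S := hS 2 (by norm_num)
  obtain ⟨q, hq, B₆, f1, f2, f3, f4⟩ := dyc F.isLaw (A := B₅) (Q := a + lam₀) (s := s) (N := N)
    (G := gN 3) (f := fun ω => wmx w (slam F w ω).2.2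
      (hcv (c 1) (c 2) (H (slam F w ω) 2) (H (slam F w ω) 3) (slam F w ω))) (fun ω hω => by
      have h1 := c3 ω (d1 ω hω)
      rw [gcl_der] at h1
      refine (hcv_parts (by positivity) h1 (d3 ω hω)
        (hup ω (c1 ω (d1 ω hω)))).trans ?_
      rw [le_div_iff₀ (by positivity), add_mul]
      have g1 : (2 : ℝ) ^ (Cc + w + s) * 2 ^ (Cv + E + 0 + S) * 2 ^ gN 3 ≤
          2 ^ (a + lam₀ + N * s - 1) := by
        rw [← pow_add, ← pow_add]
        exact pw (by omega)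
      have g2 : (2 : ℝ) ^ s * 2 ^ (Cv + E + 0 + S) * (2 ^ (Q + k * s) / 2 ^ gN 3) * 2 ^ gN 3 ≤
          2 ^ (a + lam₀ + N * s - 1) := by
        have e1 : (2 : ℝ) ^ s * 2 ^ (Cv + E + 0 + S) * (2 ^ (Q + k * s) / 2 ^ gN 3) * 2 ^ gN 3 =
            2 ^ (s + (Cv + E + 0 + S) + (Q + k * s)) := by
          rw [pow_add 2 (s + (Cv + E + 0 + S)), pow_add 2 s]
          field_simp
        rw [e1]
        exact pw (by omega)
      have e3 : (2 : ℝ) ^ (a + lam₀ + N * s) = 2 ^ (a + lam₀ + N * s - 1) +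
          2 ^ (a + lam₀ + N * s - 1) := by
        obtain ⟨z, hz⟩ : ∃ z, z = a + lam₀ + N * s - 1 := ⟨_, rfl⟩
        have e4 : a + lam₀ + N * s = z + 1 := by omega
        rw [← hz, e4, pow_succ]
        ring
      rw [e3]
      exact add_le_add g1 g2)
  have hB₆₃ : Sub B₆ B₃ := fun ω hω => c1 ω (d1 ω (f1 ω hω))
  have hPB₆ : Pe F.p B₀ ≤ 2 ^ (Cp + 4) * (N + 1) * Pe F.p B₆ := by
    calc Pe F.p B₀ ≤ 2 ^ Cp * Pe F.p B₃ := hsh
      _ ≤ 2 ^ Cp * (2 ^ 4 * Pe F.p B₅) :=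
        mul_le_mul_of_nonneg_left (by linarith) (by positivity)
      _ ≤ 2 ^ Cp * (2 ^ 4 * ((N + 1) * Pe F.p B₆)) := by
        refine mul_le_mul_of_nonneg_left (mul_le_mul_of_nonneg_left f2 (by norm_num))
          (by positivity)
      _ = _ := by
        rw [pow_add]
        ring
  have hB₆0 : 0 < Pe F.p B₆ := by
    have : 0 < (N + 1) * Pe F.p B₆ := hPB₅.trans_le f2
    exact (mul_pos_iff_of_pos_left hCN).1 this
  have hB₆₀ : Sub B₆ B₀ := fun ω hω => hB₃ ω (hB₆₃ ω hω)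
  refine hnv (J := J) (F := F) (c := c) (a := a) (w := w) (w₂ := w₂) (a₂ := a₂) (a₃ := a₃) (e := e)
    (E := E) (h := h) (s := s) (y := y) (lam₁ := lam₀ + q * s) (lam₂ := lam₂) (D₂ := D₂) (gN := gN)
    (g := g) (g₂ := g₂) (g₃ := g₃) (Y := Y) (κ := κ) (θ := θ) (B₀ := B₀) (B := B₆) (N := G)
    (T := T) (T₂ := T₂) (T₃ := T₃) (NH := H) (TH := TH) (T₂H := T₂H) (T₃H := T₃H)
    (v := v) (v' := v') hc hwy hw2a haa2 ha23 ha3J (by omega) hB₆0 hB₆₀
    (hL.sub fun ω hω => hB₃A ω (hB₆₃ ω hω)) hT hRH hT2 hR2 hT3 hκ0 ?_ ?_ ?_ hθ (hmb.trans hθJ)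
    ((hmb.trans hθs).trans hs'sr) (by omega) hgx hgM hYJ (fun l hl => by
      have := hrN l hl
      omega) (fun l hl => by
      have := hrg l hl
      omega) (fun l hl => by
      have := hr2 l hl
      omega) (fun l hl => by
      have := hr3 l hl
      omega) (by omega) (by omega) (fun ω hω => hv ω (hB₆₃ ω hω)) hv01
    (fun ω hω => hshr ω (hB₆₃ ω hω)) (fun ω hω => hdb ω (hB₆₃ ω hω))
    (fun ω hω => hdt ω (hB₆₃ ω hω)) ?_ ?_ ?_ ?_ (by omega) (by omega) (by omega) (by omega)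
  · -- the share
    have h3 : κ * 2 ^ Cb * (2 ^ (Cp + 4) * (N + 1)) ≤ 1 := by
      refine le_trans ?_ hκ1
      have h4 : (2 : ℝ) ^ Cb * 2 ^ (Cp + 4) ≤ 2 ^ C := by
        rw [← pow_add]
        exact pw (by omega)
      calc κ * 2 ^ Cb * (2 ^ (Cp + 4) * (N + 1)) = κ * (2 ^ Cb * 2 ^ (Cp + 4)) * (N + 1) := by ring
        _ ≤ κ * 2 ^ C * (N + 1) := by
          refine mul_le_mul_of_nonneg_right (mul_le_mul_of_nonneg_left h4 hκ0) hCN.le
    calc κ * 2 ^ Cb * Pe F.p B₀ ≤ κ * 2 ^ Cb * (2 ^ (Cp + 4) * (N + 1) * Pe F.p B₆) :=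
          mul_le_mul_of_nonneg_left hPB₆ (by positivity)
      _ = κ * 2 ^ Cb * (2 ^ (Cp + 4) * (N + 1)) * Pe F.p B₆ := by ring
      _ ≤ 1 * Pe F.p B₆ := mul_le_mul_of_nonneg_right h3 hB₆0.le
      _ = _ := one_mul _
  · refine le_trans ?_ hκ1
    calc κ * 2 ^ Cb ≤ κ * 2 ^ C := mul_le_mul_of_nonneg_left (pw (by omega)) hκ0
      _ ≤ _ := le_mul_of_one_le_right (by positivity) hN1
  · intro B' hB' h3 h4
    refine b3 B' hB' (fun ω h => hB₆₀ ω (h3 ω h)) ?_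
    have h5 : (2 : ℝ) ^ (Cp + 4) * 2 ^ Cb ≤ 2 ^ C := by
      rw [← pow_add]
      exact pw (by omega)
    calc Pe F.p B₀ ≤ 2 ^ (Cp + 4) * (N + 1) * Pe F.p B₆ := hPB₆
      _ ≤ 2 ^ (Cp + 4) * (N + 1) * (2 ^ Cb * Pe F.p B') :=
        mul_le_mul_of_nonneg_left h4 (by positivity)
      _ = 2 ^ (Cp + 4) * 2 ^ Cb * (N + 1) * Pe F.p B' := by ring
      _ ≤ 2 ^ C * (N + 1) * Pe F.p B' := by
        refine mul_le_mul_of_nonneg_right (mul_le_mul_of_nonneg_right h5 hCN.le) hB'.le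
  · intro ω hω t ht1 ht2
    rw [hks]
    exact (le_wmx ((win_iff hwJ ω t).1 ⟨ht1, ht2⟩)).trans (hup ω (hB₆₃ ω hω))
  · intro ω hω
    obtain ⟨t, ht, h3⟩ := wmx_mem w (slam F w ω).2.2 (hcl (c 2) (H (slam F w ω) 3) (slam F w ω))
    obtain ⟨h4, h5⟩ := (win_iff hwJ ω t).2 ht
    refine ⟨t, h4, h5, ?_⟩
    rw [← h3, hks]
    exact hlo ω (hB₆₃ ω hω)
  · intro ω hω t ht1 ht2
    have h3 := f3 ω hω
    have e4 : a + (lam₀ + q * s) = a + lam₀ + q * s := by ring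
    rw [e4]
    exact (le_wmx ((win_iff hwJ ω t).1 ⟨ht1, ht2⟩)).trans h3
  · intro hlt ω hω
    have hq0 : 0 < q := by
      by_contra hcon
      have hq0 : q = 0 := by omega
      rw [hq0] at hlt
      omega
    obtain ⟨t, ht, h3⟩ := wmx_mem w (slam F w ω).2.2
      (hcv (c 1) (c 2) (H (slam F w ω) 2) (H (slam F w ω) 3) (slam F w ω))
    obtain ⟨h4, h5⟩ := (win_iff hwJ ω t).2 ht
    refine ⟨t, h4, h5, ?_⟩
    rw [← h3]
    have e4 : a + (lam₀ + q * s) = a + lam₀ + q * s := by ring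
    rw [e4]
    exact f4 hq0 ω hω

end Pool.NVX
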